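import Mathlib
import Pool.Agent.R817.NCCheck

set_option autoImplicit false

namespace Pool.Agent.R817.NCCheck

lemma row_ok {v w x : ℕ} (hx : x < 5) (hw : w < 320)
    (h : ((TM.getD (v / 32) 0).testBit x || (TM.getD (w / 32) 0).testBit x) = true)
    (hne : (v % 32).testBit x ≠ (w % 32).testBit x) : (rowOf v).testBit w = true := by
  have hq : (qq v x).testBit w = false := by
    unfold qq
    by_cases hi : (TM.getD (v / 32) 0).testBit x = true
    · rw [hi]
      exact Q_ok x hx _ true w hw (by simp) hne
    · have hi' : (TM.getD (v / 32) 0).testBit x = false := by simpa using hi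
      rw [hi'] at h ⊢
      exact Q_ok x hx _ false w hw h hne
  have e : rowOf v = ((2 ^ 320 - 1) ^^^
      (((((qq v 0) &&& (qq v 1)) &&& (qq v 2)) &&& (qq v 3)) &&& (qq v 4))) ||| (1 <<< v) := rfl
  rw [e, Nat.testBit_or, Nat.testBit_xor, Nat.testBit_two_pow_sub_one, Nat.testBit_and,
    Nat.testBit_and, Nat.testBit_and, Nat.testBit_and]
  interval_cases x <;> simp [hq, hw]

lemma row_self (v : ℕ) : (rowOf v).testBit v = true := by
  have e : rowOf v = ((2 ^ 320 - 1) ^^^
      (((((qq v 0) &&& (qq v 1)) &&& (qq v 2)) &&& (qq v 3)) &&& (qq v 4))) ||| (1 <<< v) := rfl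
  rw [e, Nat.testBit_or, Nat.one_shiftLeft, Nat.testBit_two_pow_self]
  simp

lemma countP_eq {l : List ℕ} {p q : ℕ → Bool} (h : ∀ x ∈ l, p x = true → q x = true)
    (he : l.countP p = l.countP q) : ∀ x ∈ l, q x = true → p x = true := by
  induction l with
  | nil => simp
  | cons a l ih =>
    have h1 : ∀ x ∈ l, p x = true → q x = true := fun x hx => h x (by simp [hx])
    have h2 : l.countP p ≤ l.countP q := List.countP_mono_left h1
    have h3 := h a (by simp)
    rw [List.countP_cons, List.countP_cons] at he
    have key : l.countP p = l.countP q ∧ (q a = true → p a = true) := by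
      cases hp : p a <;> cases hq : q a <;> simp_all
    intro x hx hqx
    rcases List.mem_cons.1 hx with rfl | hx
    · exact key.2 hqx
    · exact ih h1 key.1 x hx hqx

theorem sound (s : ℕ → Bool)
    (h1 : ∀ v w, s v = true → s w = true → v ≠ w → ∃ x < 5,
      ((TM.getD (v / 32) 0).testBit x || (TM.getD (w / 32) 0).testBit x) = true ∧
      (v % 32).testBit x ≠ (w % 32).testBit x)
    (h2 : ∀ k < 120, ∃ v, s v = true ∧ inClause (clauseIds.getD k (0, 0)) v = true)
    (h3 : ∀ t < 10, cnt t s = PT.getD t 0)
    (h4 : ∀ v, s v = true → v < 320) :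
    ∀ (T : Tr) (A B : ℕ), (∀ v, s v = true → A.testBit v = true) →
      (∀ v, B.testBit v = true → s v = true) → check T A B = true → False := by
  intro T
  induction T with
  | k k =>
    intro A B hA hB hc
    simp only [check, Bool.and_eq_true, Nat.blt_eq, Nat.beq_eq] at hc
    obtain ⟨hk, h0⟩ := hc
    obtain ⟨v, hv, hkv'⟩ := h2 k hk
    have hkv := clauses_ok k hk v (h4 v hv) hkv'
    have h5 : (Nat.land A (clauses.getD k 0)).testBit v = true := by
      have : Nat.land A (clauses.getD k 0) = A &&& clauses.getD k 0 := rfl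
      rw [this, Nat.testBit_and, hA v hv, hkv]
      rfl
    rw [h0] at h5
    simp at h5
  | c t a ih =>
    intro A B hA hB hc
    simp only [check, Bool.and_eq_true, Nat.blt_eq, Nat.beq_eq] at hc
    obtain ⟨⟨ht, hcnt⟩, hc⟩ := hc
    refine ih _ B ?_ hB hc
    intro v hv
    have : Nat.land A (Nat.lor (NT.getD t 0) B) = A &&& (NT.getD t 0 ||| B) := rfl
    rw [this, Nat.testBit_and, Nat.testBit_or, hA v hv, Bool.true_and, Bool.or_eq_true]
    by_cases hvt : v / 32 = t
    · right
      have h5 := h3 t ht
      have h6 := countP_eq (l := List.range 32) (p := fun C => B.testBit (32 * t + C))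
        (q := fun C => s (32 * t + C)) (fun x _ hx => hB _ hx)
        (by rw [← hcnt] at h5; exact h5.symm) (v % 32)
        (List.mem_range.2 (Nat.mod_lt _ (by norm_num)))
      have h7 : 32 * t + v % 32 = v := by rw [← hvt]; exact Nat.div_add_mod v 32
      simp only [h7] at h6
      exact h6 hv
    · left
      exact NT_ok t ht v (h4 v hv) hvt
  | b v a b iha ihb =>
    intro A B hA hB hc
    simp only [check, Bool.and_eq_true] at hc
    obtain ⟨hca, hcb⟩ := hc
    have e1 : Nat.shiftLeft 1 v = 2 ^ v := by
      have : Nat.shiftLeft 1 v = 1 <<< v := rfl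
      rw [this, Nat.one_shiftLeft]
    by_cases hv : s v = true
    · refine iha _ _ ?_ ?_ hca
      · intro w hw
        have hrow : (rowOf v).testBit w = true := by
          rcases eq_or_ne v w with rfl | hvw
          · exact row_self v
          · obtain ⟨x, hx, h6, h7⟩ := h1 v w hv hw hvw
            exact row_ok hx (h4 w hw) h6 h7
        have : Nat.land A (rowOf v) = A &&& rowOf v := rfl
        rw [this, Nat.testBit_and, hA w hw, hrow]
        rfl
      · intro w hw
        have : Nat.lor B (Nat.shiftLeft 1 v) = B ||| 2 ^ v := by rw [e1]; rfl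
        rw [this, Nat.testBit_or, Bool.or_eq_true, Nat.testBit_two_pow] at hw
        rcases hw with hw | hw
        · exact hB w hw
        · have : v = w := by simpa using hw
          rw [← this]
          exact hv
    · refine ihb _ _ ?_ hB hcb
      intro w hw
      have hne : v ≠ w := by
        rintro rfl
        exact hv hw
      have : Nat.xor A (Nat.land A (Nat.shiftLeft 1 v)) = A ^^^ (A &&& 2 ^ v) := by rw [e1]; rfl
      rw [this, Nat.testBit_xor, Nat.testBit_and, Nat.testBit_two_pow, hA w hw]
      simp [hne]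

/-- There is no set of vertices with these properties. -/
theorem no_set (s : ℕ → Bool)
    (h1 : ∀ v w, s v = true → s w = true → v ≠ w → ∃ x < 5,
      ((TM.getD (v / 32) 0).testBit x || (TM.getD (w / 32) 0).testBit x) = true ∧
      (v % 32).testBit x ≠ (w % 32).testBit x)
    (h2 : ∀ k < 120, ∃ v, s v = true ∧ inClause (clauseIds.getD k (0, 0)) v = true)
    (h3 : ∀ t < 10, cnt t s = PT.getD t 0)
    (h4 : ∀ v, s v = true → v < 320) (h5 : s 288 = true) : False := by
  refine sound s h1 h2 h3 h4 _ _ _ ?_ ?_ check_tree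
  · intro w hw
    rcases eq_or_ne 288 w with rfl | hvw
    · exact row_self _
    · obtain ⟨x, hx, h6, h7⟩ := h1 288 w h5 hw hvw
      exact row_ok hx (h4 w hw) h6 h7
  · intro w hw
    have e1 : Nat.shiftLeft 1 288 = 2 ^ 288 := by
      have : Nat.shiftLeft 1 288 = 1 <<< 288 := rfl
      rw [this, Nat.one_shiftLeft]
    rw [e1, Nat.testBit_two_pow] at hw
    have : 288 = w := by simpa using hw
    rw [← this]
    exact h5

end Pool.Agent.R817.NCCheck
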