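import Mathlib
import Pool.Agent.R817.NCSound

set_option autoImplicit false

namespace Pool.Agent.R817.NCCheck

open Finset

/-- No clash, for concepts and pairs in binary. -/
def NC (C τ : Fin 26 → ℕ) : Prop := ∀ i j, i ≠ j → ∃ x < 5,
  ((TM.getD (τ i) 0).testBit x || (TM.getD (τ j) 0).testBit x) = true ∧
    (C i).testBit x ≠ (C j).testBit x

/-- the indices with pair inside `R` -/
def inn (τ : Fin 26 → ℕ) (R : ℕ) : Finset (Fin 26) :=
  univ.filter fun i : Fin 26 => TM.getD (τ i) 0 &&& R = TM.getD (τ i) 0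

/-- the patterns on `R` -/
def pats (R : ℕ) : Finset ℕ := (range 32).filter fun a => a &&& R = a

/-- the number of the indices with pair `t` -/
def p (τ : Fin 26 → ℕ) (t : ℕ) : ℕ := (univ.filter fun i : Fin 26 => τ i = t).card

lemma inn_injOn {C τ : Fin 26 → ℕ} (h : NC C τ) (R : ℕ) :
    Set.InjOn (fun i => C i &&& R) (inn τ R : Set (Fin 26)) := by
  intro i hi j hj he
  simp only [inn, coe_filter, mem_univ, true_and, Set.mem_ofPred_eq] at hi hj
  by_contra hij
  obtain ⟨x, hx, h1, h2⟩ := h i j hij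
  have hR : R.testBit x = true := by
    rw [Bool.or_eq_true] at h1
    rcases h1 with h1 | h1
    · rw [← hi, Nat.testBit_and, Bool.and_eq_true] at h1
      exact h1.2
    · rw [← hj, Nat.testBit_and, Bool.and_eq_true] at h1
      exact h1.2
  have h3 := congrArg (fun m => m.testBit x) he
  simp only [Nat.testBit_and, hR, Bool.and_true] at h3
  exact h2 h3

lemma inn_mapsTo {C τ : Fin 26 → ℕ} (hC : ∀ i, C i < 32) (R : ℕ) :
    (inn τ R).image (fun i => C i &&& R) ⊆ pats R := by
  intro a ha
  obtain ⟨i, -, rfl⟩ := mem_image.1 ha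
  simp only [pats, mem_filter, mem_range]
  refine ⟨lt_of_le_of_lt Nat.and_le_left (hC i), ?_⟩
  rw [Nat.and_assoc, Nat.and_self]

lemma inn_le {C τ : Fin 26 → ℕ} (h : NC C τ) (hC : ∀ i, C i < 32) (R : ℕ) :
    (inn τ R).card ≤ (pats R).card := by
  rw [← card_image_of_injOn (inn_injOn h R)]
  exact card_le_card (inn_mapsTo hC R)

lemma cover {C τ : Fin 26 → ℕ} (h : NC C τ) (hC : ∀ i, C i < 32) {R : ℕ}
    (hR : (pats R).card ≤ (inn τ R).card) {a : ℕ} (ha : a ∈ pats R) :
    ∃ i, TM.getD (τ i) 0 &&& R = TM.getD (τ i) 0 ∧ C i &&& R = a := by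
  have he : (inn τ R).image (fun i => C i &&& R) = pats R := by
    apply eq_of_subset_of_card_le (inn_mapsTo hC R)
    rw [card_image_of_injOn (inn_injOn h R)]
    exact hR
  rw [← he] at ha
  obtain ⟨i, hi, hia⟩ := mem_image.1 ha
  simp only [inn, mem_filter, mem_univ, true_and] at hi
  exact ⟨i, hi, hia⟩

lemma inn_sum {τ : Fin 26 → ℕ} (hτ : ∀ i, τ i < 10) (R : ℕ) :
    (inn τ R).card = ∑ t ∈ (range 10).filter (fun t => TM.getD t 0 &&& R = TM.getD t 0), p τ t := by
  rw [card_eq_sum_card_fiberwise (f := τ)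
    (t := (range 10).filter (fun t => TM.getD t 0 &&& R = TM.getD t 0))]
  · apply sum_congr rfl
    intro t ht
    unfold p
    congr 1
    ext i
    simp only [inn, mem_filter, mem_univ, true_and, mem_range] at ht ⊢
    constructor
    · exact fun h => h.2
    · rintro rfl
      exact ⟨ht.2, rfl⟩
  · intro i hi
    simp only [inn, coe_filter, mem_univ, true_and, Set.mem_ofPred_eq, mem_range] at hi ⊢
    exact ⟨hτ i, hi⟩

lemma all_sum {τ : Fin 26 → ℕ} (hτ : ∀ i, τ i < 10) : ∑ t ∈ range 10, p τ t = 26 := by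
  have h := card_eq_sum_card_fiberwise (f := τ) (s := (univ : Finset (Fin 26))) (t := range 10)
    (by intro i _; simpa using hτ i)
  rw [card_univ, Fintype.card_fin] at h
  exact h.symm

lemma s3 (f : ℕ → ℕ) {a b c : ℕ} (h1 : a ≠ b) (h2 : a ≠ c) (h3 : b ≠ c) :
    ∑ t ∈ ({a, b, c} : Finset ℕ), f t = f a + f b + f c := by
  rw [sum_insert (by simp [h1, h2]), sum_insert (by simp [h3]), sum_singleton, add_assoc]

lemma s6a (f : ℕ → ℕ) : ∑ t ∈ ({4, 5, 6, 7, 8, 9} : Finset ℕ), f t =
    f 4 + (f 5 + (f 6 + (f 7 + (f 8 + f 9)))) := by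
  rw [sum_insert (by decide), sum_insert (by decide), sum_insert (by decide),
    sum_insert (by decide), sum_insert (by decide), sum_singleton]

lemma s6b (f : ℕ → ℕ) : ∑ t ∈ ({1, 2, 3, 7, 8, 9} : Finset ℕ), f t =
    f 1 + (f 2 + (f 3 + (f 7 + (f 8 + f 9)))) := by
  rw [sum_insert (by decide), sum_insert (by decide), sum_insert (by decide),
    sum_insert (by decide), sum_insert (by decide), sum_singleton]

lemma s6c (f : ℕ → ℕ) : ∑ t ∈ ({0, 2, 3, 5, 6, 9} : Finset ℕ), f t =
    f 0 + (f 2 + (f 3 + (f 5 + (f 6 + f 9)))) := by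
  rw [sum_insert (by decide), sum_insert (by decide), sum_insert (by decide),
    sum_insert (by decide), sum_insert (by decide), sum_singleton]

/-- All the numbers of pairs. -/
lemma p_eq {C τ : Fin 26 → ℕ} (h : NC C τ) (hC : ∀ i, C i < 32) (hτ : ∀ i, τ i < 10)
    (h0 : (inn τ 30).card = 16) (h1 : (inn τ 29).card = 16) (h2 : (inn τ 27).card = 16) :
    p τ 0 = 2 ∧ p τ 1 = 2 ∧ p τ 2 = 3 ∧ p τ 3 = 3 ∧ p τ 4 = 2 ∧ p τ 5 = 3 ∧ p τ 6 = 3 ∧
      p τ 7 = 3 ∧ p τ 8 = 3 ∧ p τ 9 = 2 := by
  have a1 := inn_sum hτ 30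
  have a2 := inn_sum hτ 29
  have a3 := inn_sum hτ 27
  rw [h0, show (range 10).filter (fun t => TM.getD t 0 &&& 30 = TM.getD t 0) = {4, 5, 6, 7, 8, 9}
    from by decide] at a1
  rw [h1, show (range 10).filter (fun t => TM.getD t 0 &&& 29 = TM.getD t 0) = {1, 2, 3, 7, 8, 9}
    from by decide] at a2
  rw [h2, show (range 10).filter (fun t => TM.getD t 0 &&& 27 = TM.getD t 0) = {0, 2, 3, 5, 6, 9}
    from by decide] at a3
  have b1 := inn_le h hC 7
  have b2 := inn_le h hC 11
  have b3 := inn_le h hC 19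
  have b4 := inn_le h hC 13
  have b5 := inn_le h hC 21
  have b6 := inn_le h hC 25
  have b7 := inn_le h hC 14
  have b8 := inn_le h hC 22
  have b9 := inn_le h hC 26
  have b10 := inn_le h hC 28
  rw [inn_sum hτ, show (pats 7).card = 8 from by decide, show (range 10).filter
    (fun t => TM.getD t 0 &&& 7 = TM.getD t 0) = {0, 1, 4} from by decide] at b1
  rw [inn_sum hτ, show (pats 11).card = 8 from by decide, show (range 10).filter
    (fun t => TM.getD t 0 &&& 11 = TM.getD t 0) = {0, 2, 5} from by decide] at b2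
  rw [inn_sum hτ, show (pats 19).card = 8 from by decide, show (range 10).filter
    (fun t => TM.getD t 0 &&& 19 = TM.getD t 0) = {0, 3, 6} from by decide] at b3
  rw [inn_sum hτ, show (pats 13).card = 8 from by decide, show (range 10).filter
    (fun t => TM.getD t 0 &&& 13 = TM.getD t 0) = {1, 2, 7} from by decide] at b4
  rw [inn_sum hτ, show (pats 21).card = 8 from by decide, show (range 10).filter
    (fun t => TM.getD t 0 &&& 21 = TM.getD t 0) = {1, 3, 8} from by decide] at b5
  rw [inn_sum hτ, show (pats 25).card = 8 from by decide, show (range 10).filter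
    (fun t => TM.getD t 0 &&& 25 = TM.getD t 0) = {2, 3, 9} from by decide] at b6
  rw [inn_sum hτ, show (pats 14).card = 8 from by decide, show (range 10).filter
    (fun t => TM.getD t 0 &&& 14 = TM.getD t 0) = {4, 5, 7} from by decide] at b7
  rw [inn_sum hτ, show (pats 22).card = 8 from by decide, show (range 10).filter
    (fun t => TM.getD t 0 &&& 22 = TM.getD t 0) = {4, 6, 8} from by decide] at b8
  rw [inn_sum hτ, show (pats 26).card = 8 from by decide, show (range 10).filter
    (fun t => TM.getD t 0 &&& 26 = TM.getD t 0) = {5, 6, 9} from by decide] at b9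
  rw [inn_sum hτ, show (pats 28).card = 8 from by decide, show (range 10).filter
    (fun t => TM.getD t 0 &&& 28 = TM.getD t 0) = {7, 8, 9} from by decide] at b10
  have c := all_sum hτ
  simp only [sum_range_succ, range_zero, sum_empty, zero_add] at c
  rw [s6a] at a1
  rw [s6b] at a2
  rw [s6c] at a3
  rw [s3 _ (by decide) (by decide) (by decide)] at b1
  rw [s3 _ (by decide) (by decide) (by decide)] at b2
  rw [s3 _ (by decide) (by decide) (by decide)] at b3
  rw [s3 _ (by decide) (by decide) (by decide)] at b4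
  rw [s3 _ (by decide) (by decide) (by decide)] at b5
  rw [s3 _ (by decide) (by decide) (by decide)] at b6
  rw [s3 _ (by decide) (by decide) (by decide)] at b7
  rw [s3 _ (by decide) (by decide) (by decide)] at b8
  rw [s3 _ (by decide) (by decide) (by decide)] at b9
  rw [s3 _ (by decide) (by decide) (by decide)] at b10
  generalize p τ 0 = q0 at *
  generalize p τ 1 = q1 at *
  generalize p τ 2 = q2 at *
  generalize p τ 3 = q3 at *
  generalize p τ 4 = q4 at *
  generalize p τ 5 = q5 at *
  generalize p τ 6 = q6 at *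
  generalize p τ 7 = q7 at *
  generalize p τ 8 = q8 at *
  generalize p τ 9 = q9 at *
  omega

end Pool.Agent.R817.NCCheck
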