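import Mathlib
import Pool.Agent.R817.NCNum

set_option autoImplicit false

namespace Pool.Agent.R817.NCCheck

open Finset

set_option maxRecDepth 100000 in
lemma ids_ok : ∀ k < 120, (clauseIds.getD k (0, 0)).1 ∈ [30, 29, 27, 11, 19, 13, 21, 25, 14, 22, 26, 28]
    ∧ (clauseIds.getD k (0, 0)).2 ∈ pats (clauseIds.getD k (0, 0)).1 := by
  decide +kernel

/-- the vertex of the index `i` -/
def vert (C τ : Fin 26 → ℕ) (i : Fin 26) : ℕ := 32 * τ i + C i

lemma vert_div {C τ : Fin 26 → ℕ} (hC : ∀ i, C i < 32) (i : Fin 26) : vert C τ i / 32 = τ i := by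
  have := hC i
  unfold vert
  omega

lemma vert_mod {C τ : Fin 26 → ℕ} (hC : ∀ i, C i < 32) (i : Fin 26) : vert C τ i % 32 = C i := by
  have := hC i
  unfold vert
  omega

lemma C_ne {C τ : Fin 26 → ℕ} (h : NC C τ) {i j : Fin 26} (hij : i ≠ j) : C i ≠ C j := by
  obtain ⟨x, -, -, h2⟩ := h i j hij
  intro he
  exact h2 (by rw [he])

lemma cnt_eq {C τ : Fin 26 → ℕ} (h : NC C τ) (hC : ∀ i, C i < 32) (t : ℕ) :
    cnt t (fun v => decide (∃ i, vert C τ i = v)) = p τ t := by
  unfold cnt p
  have e1 : (List.range 32).countP (fun c => decide (∃ i, vert C τ i = 32 * t + c))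
      = ((range 32).filter fun c => ∃ i, vert C τ i = 32 * t + c).card := by
    rw [List.countP_eq_length_filter]
    rfl
  rw [e1]
  have e2 : ((range 32).filter fun c => ∃ i, vert C τ i = 32 * t + c)
      = (univ.filter fun i : Fin 26 => τ i = t).image C := by
    ext c
    simp only [mem_filter, mem_range, mem_image, mem_univ, true_and]
    constructor
    · rintro ⟨hc, i, hi⟩
      refine ⟨i, ?_, ?_⟩
      · have := vert_div (τ := τ) hC i
        omega
      · have := vert_mod (τ := τ) hC i
        omega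
    · rintro ⟨i, hi, rfl⟩
      exact ⟨hC i, i, by rw [← hi]; rfl⟩
  rw [e2, card_image_of_injOn]
  intro i _ j _ he
  by_contra hij
  exact C_ne h hij he

theorem no_num_zero {C τ : Fin 26 → ℕ} (h : NC C τ) (hC : ∀ i, C i < 32) (hτ : ∀ i, τ i < 10)
    (h0 : (inn τ 30).card = 16) (h1 : (inn τ 29).card = 16) (h2 : (inn τ 27).card = 16)
    {i0 : Fin 26} (hi0 : τ i0 = 9) (hi1 : C i0 = 0) : False := by
  obtain ⟨p0, p1, p2, p3, p4, p5, p6, p7, p8, p9⟩ := p_eq h hC hτ h0 h1 h2
  refine no_set (fun v => decide (∃ i, vert C τ i = v)) ?_ ?_ ?_ ?_ ?_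
  · intro v w hv hw hvw
    obtain ⟨i, rfl⟩ := of_decide_eq_true hv
    obtain ⟨j, rfl⟩ := of_decide_eq_true hw
    rw [vert_div hC, vert_div hC, vert_mod hC, vert_mod hC]
    exact h i j (fun he => hvw (by rw [he]))
  · intro k hk
    obtain ⟨hR, ha⟩ := ids_ok k hk
    have hcard : (pats (clauseIds.getD k (0, 0)).1).card ≤ (inn τ (clauseIds.getD k (0, 0)).1).card := by
      generalize (clauseIds.getD k (0, 0)).1 = R at hR
      simp only [List.mem_cons, List.not_mem_nil, or_false] at hR
      rcases hR with rfl | rfl | rfl | rfl | rfl | rfl | rfl | rfl | rfl | rfl | rfl | rfl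
      · rw [h0]; decide
      · rw [h1]; decide
      · rw [h2]; decide
      · rw [inn_sum hτ, show (pats 11).card = 8 from by decide, show (range 10).filter
          (fun t => TM.getD t 0 &&& 11 = TM.getD t 0) = {0, 2, 5} from by decide,
          s3 _ (by decide) (by decide) (by decide), p0, p2, p5]
      · rw [inn_sum hτ, show (pats 19).card = 8 from by decide, show (range 10).filter
          (fun t => TM.getD t 0 &&& 19 = TM.getD t 0) = {0, 3, 6} from by decide,
          s3 _ (by decide) (by decide) (by decide), p0, p3, p6]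
      · rw [inn_sum hτ, show (pats 13).card = 8 from by decide, show (range 10).filter
          (fun t => TM.getD t 0 &&& 13 = TM.getD t 0) = {1, 2, 7} from by decide,
          s3 _ (by decide) (by decide) (by decide), p1, p2, p7]
      · rw [inn_sum hτ, show (pats 21).card = 8 from by decide, show (range 10).filter
          (fun t => TM.getD t 0 &&& 21 = TM.getD t 0) = {1, 3, 8} from by decide,
          s3 _ (by decide) (by decide) (by decide), p1, p3, p8]
      · rw [inn_sum hτ, show (pats 25).card = 8 from by decide, show (range 10).filter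
          (fun t => TM.getD t 0 &&& 25 = TM.getD t 0) = {2, 3, 9} from by decide,
          s3 _ (by decide) (by decide) (by decide), p2, p3, p9]
      · rw [inn_sum hτ, show (pats 14).card = 8 from by decide, show (range 10).filter
          (fun t => TM.getD t 0 &&& 14 = TM.getD t 0) = {4, 5, 7} from by decide,
          s3 _ (by decide) (by decide) (by decide), p4, p5, p7]
      · rw [inn_sum hτ, show (pats 22).card = 8 from by decide, show (range 10).filter
          (fun t => TM.getD t 0 &&& 22 = TM.getD t 0) = {4, 6, 8} from by decide,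
          s3 _ (by decide) (by decide) (by decide), p4, p6, p8]
      · rw [inn_sum hτ, show (pats 26).card = 8 from by decide, show (range 10).filter
          (fun t => TM.getD t 0 &&& 26 = TM.getD t 0) = {5, 6, 9} from by decide,
          s3 _ (by decide) (by decide) (by decide), p5, p6, p9]
      · rw [inn_sum hτ, show (pats 28).card = 8 from by decide, show (range 10).filter
          (fun t => TM.getD t 0 &&& 28 = TM.getD t 0) = {7, 8, 9} from by decide,
          s3 _ (by decide) (by decide) (by decide), p7, p8, p9]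
    obtain ⟨i, hi, hia⟩ := cover h hC hcard ha
    refine ⟨vert C τ i, decide_eq_true ⟨i, rfl⟩, ?_⟩
    unfold inClause
    rw [vert_div hC, vert_mod hC, Bool.and_eq_true, Nat.beq_eq, Nat.beq_eq]
    exact ⟨hi, hia⟩
  · intro t ht
    rw [cnt_eq h hC]
    interval_cases t <;> simp [PT, *]
  · intro v hv
    obtain ⟨i, rfl⟩ := of_decide_eq_true hv
    have a := hC i
    have b := hτ i
    unfold vert
    omega
  · refine decide_eq_true ⟨i0, ?_⟩
    unfold vert
    rw [hi0, hi1]

theorem no_num {C τ : Fin 26 → ℕ} (h : NC C τ) (hC : ∀ i, C i < 32) (hτ : ∀ i, τ i < 10)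
    (h0 : (inn τ 30).card = 16) (h1 : (inn τ 29).card = 16) (h2 : (inn τ 27).card = 16) :
    False := by
  obtain ⟨-, -, -, -, -, -, -, -, -, p9⟩ := p_eq h hC hτ h0 h1 h2
  have hne : (univ.filter fun i : Fin 26 => τ i = 9).Nonempty := by
    rw [← card_pos]
    unfold p at p9
    omega
  obtain ⟨i0, hi0⟩ := hne
  rw [mem_filter] at hi0
  refine no_num_zero (C := fun i => C i ^^^ C i0) (τ := τ) ?_ ?_ hτ h0 h1 h2 hi0.2 (Nat.xor_self _)
  · intro i j hij
    obtain ⟨x, hx, h3, h4⟩ := h i j hij
    refine ⟨x, hx, h3, ?_⟩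
    simp only [Nat.testBit_xor]
    intro he
    apply h4
    revert he
    cases (C i).testBit x <;> cases (C j).testBit x <;> cases (C i0).testBit x <;> simp
  · intro i
    have : C i ^^^ C i0 < 2 ^ 5 := Nat.xor_lt_two_pow (hC i) (hC i0)
    simpa using this

lemma code_c : ∀ c : Fin 5 → Bool, ∃ C < 32, ∀ x : Fin 5, C.testBit x = c x := by
  decide +kernel

lemma code_t : ∀ t : Finset (Fin 5), t.card = 2 → ∃ τ < 10, ∀ x : Fin 5,
    (TM.getD τ 0).testBit x = decide (x ∈ t) := by
  decide +kernel

lemma sub_iff : ∀ τ < 10, ∀ z : Fin 5, (TM.getD τ 0 &&& (31 - 2 ^ z.1) = TM.getD τ 0) ↔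
    (TM.getD τ 0).testBit z = false := by
  decide +kernel

theorem no_fam_spec (c : Fin 26 → Fin 5 → Bool) (t : Fin 26 → Finset (Fin 5))
    (hc : ∀ i j, i ≠ j → ∃ x ∈ t i ∪ t j, c i x ≠ c j x) (ht : ∀ i, (t i).card = 2)
    (h : ∀ z : Fin 5, z ≠ 3 → z ≠ 4 → (univ.filter fun i => z ∉ t i).card = 16) : False := by
  choose C hC hCx using fun i => code_c (c i)
  choose τ hτ hτx using fun i => code_t (t i) (ht i)
  have hN : ∀ z : Fin 5, (inn τ (31 - 2 ^ z.1)).card = (univ.filter fun i => z ∉ t i).card := by
    intro z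
    congr 1
    ext i
    simp only [inn, mem_filter, mem_univ, true_and]
    rw [sub_iff (τ i) (hτ i) z, hτx i z]
    simp
  refine no_num (C := C) (τ := τ) ?_ hC hτ ?_ ?_ ?_
  · intro i j hij
    obtain ⟨x, hx, hne⟩ := hc i j hij
    refine ⟨x.1, x.2, ?_, ?_⟩
    · rw [hτx i x, hτx j x, Bool.or_eq_true, decide_eq_true_eq, decide_eq_true_eq]
      exact mem_union.1 hx
    · rw [hCx i x, hCx j x]
      exact hne
  · exact (hN 0).trans (h 0 (by decide) (by decide))
  · exact (hN 1).trans (h 1 (by decide) (by decide))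
  · exact (hN 2).trans (h 2 (by decide) (by decide))

lemma perm_ok : ∀ a b : Fin 5, a ≠ b → ∃ e : Equiv.Perm (Fin 5), e a = 3 ∧ e b = 4 := by
  intro a b hab
  refine ⟨(Equiv.swap a 3).trans (Equiv.swap (Equiv.swap a 3 b) 4), ?_, ?_⟩
  · revert a b
    decide
  · revert a b
    decide

lemma card_ne : ∀ z : Fin 5, Fintype.card {x : Fin 5 // x ≠ z} = 4 := by decide

/-- There are no 26 concepts over 5 points with pairs without a clash. -/
theorem no_fam (c : Fin 26 → Fin 5 → Bool) (t : Fin 26 → Finset (Fin 5))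
    (hc : ∀ i j, i ≠ j → ∃ x ∈ t i ∪ t j, c i x ≠ c j x) (ht : ∀ i, (t i).card = 2) : False := by
  classical
  -- the numbers of the pairs avoiding a point
  have hle : ∀ z : Fin 5, (univ.filter fun i => z ∉ t i).card ≤ 16 := by
    intro z
    have : (univ.filter fun i => z ∉ t i).card ≤
        (univ : Finset ({x : Fin 5 // x ≠ z} → Bool)).card := by
      refine card_le_card_of_injOn (fun i => fun x : {x : Fin 5 // x ≠ z} => c i x.1) (by simp) ?_
      intro i hi j hj he
      simp only [coe_filter, mem_univ, true_and, Set.mem_ofPred_eq] at hi hj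
      by_contra hij
      obtain ⟨x, hx, hne⟩ := hc i j hij
      have hxz : x ≠ z := by
        rintro rfl
        rw [mem_union] at hx
        exact hx.elim hi hj
      exact hne (congrFun he ⟨x, hxz⟩)
    have e : (univ : Finset ({x : Fin 5 // x ≠ z} → Bool)).card = 16 := by
      rw [card_univ, Fintype.card_fun, Fintype.card_bool]
      rw [card_ne z]
      norm_num
    omega
  have hsum : ∑ z : Fin 5, (univ.filter fun i => z ∉ t i).card = 78 := by
    have h1 : ∑ z : Fin 5, (univ.filter fun i => z ∉ t i).card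
        = ∑ i : Fin 26, (univ.filter fun z : Fin 5 => z ∉ t i).card := by
      simp_rw [card_filter]
      rw [sum_comm]
    have h2 : ∀ i : Fin 26, (univ.filter fun z : Fin 5 => z ∉ t i).card = 3 := by
      intro i
      have : (univ.filter fun z : Fin 5 => z ∉ t i) = (t i)ᶜ := by
        ext z
        simp
      rw [this, card_compl, ht i]
      rfl
    rw [h1, sum_congr rfl fun i _ => h2 i]
    simp
  obtain ⟨a, b, hab, hz⟩ : ∃ a b : Fin 5, a ≠ b ∧ ∀ z, z ≠ a → z ≠ b →
      (univ.filter fun i => z ∉ t i).card = 16 := by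
    have hZ : (univ.filter fun z : Fin 5 => (univ.filter fun i => z ∉ t i).card < 16).card ≤ 2 := by
      have h1 : ∑ z : Fin 5, ((univ.filter fun i => z ∉ t i).card +
          if (univ.filter fun i => z ∉ t i).card < 16 then 1 else 0) ≤ ∑ z : Fin 5, 16 := by
        apply sum_le_sum
        intro z _
        have := hle z
        split_ifs <;> omega
      rw [sum_add_distrib, hsum, ← card_filter] at h1
      simp only [sum_const, card_univ, Fintype.card_fin, smul_eq_mul] at h1
      omega
    obtain ⟨W, hW1, hW2⟩ := Finset.exists_superset_card_eq hZ (by simp)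
    obtain ⟨a, b, hab, rfl⟩ := card_eq_two.1 hW2
    refine ⟨a, b, hab, fun z hza hzb => ?_⟩
    by_contra hne
    have hlt : (univ.filter fun i => z ∉ t i).card < 16 := lt_of_le_of_ne (hle z) hne
    have : z ∈ ({a, b} : Finset (Fin 5)) := hW1 (by simp [hlt])
    simp only [mem_insert, mem_singleton] at this
    exact this.elim hza hzb
  obtain ⟨e, hea, heb⟩ := perm_ok a b hab
  refine no_fam_spec (fun i y => c i (e.symm y)) (fun i => (t i).map e.toEmbedding) ?_ ?_ ?_
  · intro i j hij
    obtain ⟨x, hx, hne⟩ := hc i j hij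
    refine ⟨e x, ?_, by simpa using hne⟩
    rw [← Finset.map_union]
    exact Finset.mem_map.2 ⟨x, hx, rfl⟩
  · intro i
    simpa using ht i
  · intro z h3 h4
    have h5 := hz (e.symm z) (fun he => h3 (by rw [← hea, ← he]; simp))
      (fun he => h4 (by rw [← heb, ← he]; simp))
    rw [← h5]
    congr 1
    ext i
    simp

end Pool.Agent.R817.NCCheck
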