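import Pool.Agent.R817.Twist

/-!
# A half-scaling of the line and an adapted twist
-/

set_option autoImplicit false

open Set Topology Filter

namespace Pool.Agent.R817.Twist

/-- The map `E` interpolates linearly between the values `2 ^ k` at the integers `k`. -/
noncomputable def E (w : ℝ) : ℝ := (2 : ℝ) ^ ⌊w⌋ * (1 + Int.fract w)

lemma E_pos (w : ℝ) : 0 < E w := by
  have := Int.fract_nonneg w
  have h2 : (0 : ℝ) < (2 : ℝ) ^ ⌊w⌋ := zpow_pos (by norm_num) _
  exact mul_pos h2 (by linarith)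

lemma E_strictMono : StrictMono E := by
  intro w w' h
  have h2 : ∀ k : ℤ, (0 : ℝ) < (2 : ℝ) ^ k := fun k => zpow_pos (by norm_num) _
  rcases (Int.floor_mono h.le).eq_or_lt with h1 | h1
  · have h3 : Int.fract w < Int.fract w' := by
      simp only [Int.fract, h1]
      linarith
    simp only [E, h1]
    exact mul_lt_mul_of_pos_left (by linarith) (h2 _)
  · calc E w < (2 : ℝ) ^ ⌊w⌋ * 2 :=
          mul_lt_mul_of_pos_left (by linarith [Int.fract_lt_one w]) (h2 _)
      _ = (2 : ℝ) ^ (⌊w⌋ + 1) := by rw [zpow_add_one₀ (by norm_num)]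
      _ ≤ (2 : ℝ) ^ ⌊w'⌋ := zpow_le_zpow_right₀ (by norm_num) h1
      _ ≤ E w' := by
          have := Int.fract_nonneg w'
          have h4 := h2 ⌊w'⌋
          simp only [E]
          nlinarith

lemma E_surj (t : ℝ) (ht : 0 < t) : ∃ w, E w = t := by
  have h2 : ∀ k : ℤ, (0 : ℝ) < (2 : ℝ) ^ k := fun k => zpow_pos (by norm_num) _
  have h3 : (2 : ℝ) ^ Int.log 2 t ≤ t := by exact_mod_cast Int.zpow_log_le_self (by norm_num) ht
  have h4 : t < (2 : ℝ) ^ (Int.log 2 t + 1) := by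
    exact_mod_cast Int.lt_zpow_succ_log_self (by norm_num) t
  set k := Int.log 2 t with hk
  have h5 : 0 ≤ t / 2 ^ k - 1 := by
    rw [sub_nonneg, le_div_iff₀ (h2 k)]
    linarith
  have h6 : t / 2 ^ k - 1 < 1 := by
    rw [zpow_add_one₀ (by norm_num)] at h4
    rw [sub_lt_iff_lt_add, div_lt_iff₀ (h2 k)]
    linarith
  have h7 : ⌊(k : ℝ) + (t / 2 ^ k - 1)⌋ = k := by
    rw [Int.floor_eq_iff]
    constructor <;> linarith
  refine ⟨k + (t / 2 ^ k - 1), ?_⟩
  have h8 : Int.fract ((k : ℝ) + (t / 2 ^ k - 1)) = t / 2 ^ k - 1 := by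
    rw [Int.fract, h7]; ring
  rw [E, h7, h8]
  field_simp
  ring

lemma E_add_one (w : ℝ) : E (w + 1) = 2 * E w := by
  simp only [E, Int.floor_add_one, Int.fract_add_one]
  rw [zpow_add_one₀ (by norm_num)]
  ring

/-- `E` as an order isomorphism onto `(0, ∞)`. -/
noncomputable def e : ℝ ≃o Ioi (0 : ℝ) :=
  StrictMono.orderIsoOfSurjective (fun w => (⟨E w, E_pos w⟩ : Ioi (0 : ℝ)))
    (fun _ _ h => E_strictMono h) fun t => by
      obtain ⟨w, hw⟩ := E_surj t.1 t.2
      exact ⟨w, Subtype.ext hw⟩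

/-- The inverse of `E`. -/
noncomputable def L (t : ℝ) : ℝ := if h : 0 < t then e.symm ⟨t, h⟩ else 0

lemma E_L {t : ℝ} (ht : 0 < t) : E (L t) = t := by
  rw [L, dif_pos ht]
  have := e.apply_symm_apply ⟨t, ht⟩
  exact congrArg Subtype.val this

lemma L_E (w : ℝ) : L (E w) = w := E_strictMono.injective (E_L (E_pos w))

lemma continuousOn_L : ContinuousOn L (Ioi 0) := by
  rw [continuousOn_iff_continuous_domRestrict]
  have : (Ioi (0 : ℝ)).domRestrict L = e.symm := by
    ext t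
    exact dif_pos t.2
  rw [this]
  exact e.symm.continuous

lemma tendsto_L : Tendsto L (𝓝[>] 0) atBot := by
  refine tendsto_atBot.2 fun M => ?_
  have h1 : Ioo (0 : ℝ) (E M) ∈ 𝓝[>] (0 : ℝ) := Ioo_mem_nhdsGT (E_pos M)
  filter_upwards [h1] with t ht
  have : E (L t) < E M := by rw [E_L ht.1]; exact ht.2
  exact (E_strictMono.lt_iff_lt.1 this).le

/-- The homeomorphism of the line which is the identity on `(-∞, 0]` and corresponds to `w ↦ w + c`
on `(0, ∞)`. -/
noncomputable def rhoFun (c t : ℝ) : ℝ := if t ≤ 0 then t else E (L t + c)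

lemma rhoFun_of_nonpos {c t : ℝ} (h : t ≤ 0) : rhoFun c t = t := if_pos h

lemma rhoFun_of_pos {c t : ℝ} (h : 0 < t) : rhoFun c t = E (L t + c) := if_neg (not_le.2 h)

lemma rhoFun_rhoFun (c t : ℝ) : rhoFun (-c) (rhoFun c t) = t := by
  rcases le_or_gt t 0 with h | h
  · rw [rhoFun_of_nonpos h, rhoFun_of_nonpos h]
  · rw [rhoFun_of_pos h, rhoFun_of_pos (E_pos _), L_E, add_neg_cancel_right, E_L h]

lemma rhoFun_strictMono (c : ℝ) : StrictMono (rhoFun c) := by
  intro s t h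
  rcases le_or_gt t 0 with h1 | h1
  · rw [rhoFun_of_nonpos h1, rhoFun_of_nonpos (h.le.trans h1)]
    exact h
  · rw [rhoFun_of_pos h1]
    rcases le_or_gt s 0 with h2 | h2
    · rw [rhoFun_of_nonpos h2]
      exact h2.trans_lt (E_pos _)
    · rw [rhoFun_of_pos h2]
      refine E_strictMono (add_lt_add_left ?_ c)
      rw [← E_strictMono.lt_iff_lt, E_L h1, E_L h2]
      exact h

/-- The half-scaling `ρ`. -/
noncomputable def rho : ℝ ≃o ℝ where
  toFun := rhoFun (1 / 2)
  invFun := rhoFun (-(1 / 2))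
  left_inv t := rhoFun_rhoFun _ t
  right_inv t := by
    have := rhoFun_rhoFun (-(1 / 2)) t
    rwa [neg_neg] at this
  map_rel_iff' := (rhoFun_strictMono _).le_iff_le

lemma rho_zero : rho 0 = 0 := rhoFun_of_nonpos le_rfl

lemma rho_of_nonpos {t : ℝ} (h : t ≤ 0) : rho t = t := rhoFun_of_nonpos h

lemma rho_of_pos {t : ℝ} (h : 0 < t) : rho t = E (L t + 1 / 2) := rhoFun_of_pos h

/-- The real twist. -/
noncomputable def tau0 (t : ℝ) : ℝ :=
  if t ≤ 0 then 0 else √|L t| * Real.cos (2 * Real.pi * L t)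

lemma tau0_of_nonpos {t : ℝ} (h : t ≤ 0) : tau0 t = 0 := if_pos h

lemma tau0_of_pos {t : ℝ} (h : 0 < t) : tau0 t = √|L t| * Real.cos (2 * Real.pi * L t) :=
  if_neg (not_le.2 h)

lemma tau0_E (w : ℝ) : tau0 (E w) = √|w| * Real.cos (2 * Real.pi * w) := by
  rw [tau0_of_pos (E_pos w), L_E]

lemma continuousOn_tau0 : ContinuousOn tau0 (Ioi 0) := by
  have h1 : ContinuousOn (fun t => √|L t| * Real.cos (2 * Real.pi * L t)) (Ioi 0) :=
    (continuousOn_L.abs.sqrt).mul
      (Real.continuous_cos.comp_continuousOn (continuousOn_const.mul continuousOn_L))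
  exact h1.congr fun t ht => tau0_of_pos ht

lemma tendsto_sqrt_sub (c : ℝ) : Tendsto (fun w : ℝ => √|w| - √|w + c|) atBot (𝓝 0) := by
  have h1 : Tendsto (fun w : ℝ => |c| / √|w|) atBot (𝓝 0) :=
    Tendsto.div_atTop tendsto_const_nhds
      (Real.tendsto_sqrt_atTop.comp tendsto_abs_atBot_atTop)
  refine squeeze_zero_norm' ?_ h1
  filter_upwards [eventually_lt_atBot 0] with w hw
  have h2 : 0 < √|w| := Real.sqrt_pos.2 (abs_pos.2 hw.ne)
  rw [Real.norm_eq_abs, le_div_iff₀ h2]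
  have h0 := Real.sqrt_nonneg |w + c|
  have h3 : |(√|w| - √|w + c| : ℝ)| * (√|w| + √|w + c|) = |(|w| - |w + c| : ℝ)| := by
    rw [← abs_of_nonneg (add_nonneg h2.le h0), ← abs_mul]
    congr 1
    have e1 := Real.mul_self_sqrt (abs_nonneg w)
    have e2 := Real.mul_self_sqrt (abs_nonneg (w + c))
    nlinarith
  have h4 : |(|w| - |w + c| : ℝ)| ≤ |c| := by
    have := abs_abs_sub_abs_le w (w + c)
    rwa [sub_add_cancel_left, abs_neg] at this
  have h5 : |(√|w| - √|w + c| : ℝ)| * √|w| ≤ |(√|w| - √|w + c| : ℝ)| * (√|w| + √|w + c|) :=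
    mul_le_mul_of_nonneg_left (by linarith) (abs_nonneg _)
  linarith

lemma tendsto_aux (c : ℝ) : Tendsto (fun t : ℝ => Real.cos (2 * Real.pi * L t) *
    (√|L t| - √|L t + c|)) (𝓝[>] 0) (𝓝 0) := by
  have h1 : Tendsto (fun t : ℝ => √|L t| - √|L t + c|) (𝓝[>] 0) (𝓝 0) :=
    (tendsto_sqrt_sub c).comp tendsto_L
  refine squeeze_zero_norm (fun t => ?_) (tendsto_zero_iff_norm_tendsto_zero.1 h1)
  rw [norm_mul]
  have h2 : ‖Real.cos (2 * Real.pi * L t)‖ ≤ 1 := Real.abs_cos_le_one _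
  exact mul_le_of_le_one_left (norm_nonneg _) h2

lemma tendsto_tau0_two : Tendsto (fun t => tau0 t - tau0 (2 * t)) (𝓝[>] 0) (𝓝 0) := by
  refine (tendsto_aux 1).congr' ?_
  filter_upwards [self_mem_nhdsWithin] with t ht
  have h1 : L (2 * t) = L t + 1 := by
    rw [← L_E (L t + 1), E_add_one, E_L ht]
  rw [tau0_of_pos ht, tau0_of_pos (mul_pos two_pos ht), h1, mul_add, mul_one, Real.cos_add_two_pi]
  ring

lemma tendsto_tau0_rho : Tendsto (fun t => tau0 t + tau0 (rho t)) (𝓝[>] 0) (𝓝 0) := by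
  refine (tendsto_aux (1 / 2)).congr' ?_
  filter_upwards [self_mem_nhdsWithin] with t ht
  rw [rho_of_pos ht, tau0_E, tau0_of_pos ht]
  have h1 : 2 * Real.pi * (L t + 1 / 2) = 2 * Real.pi * L t + Real.pi := by ring
  rw [h1, Real.cos_add_pi]
  ring

lemma tendsto_tau0_sub (s : ℝ) (hs : s ≠ 0) :
    Tendsto (fun t => tau0 (t - s) - tau0 (rho t - rho s)) (𝓝[>] s) (𝓝 0) := by
  rcases hs.lt_or_gt with h | h
  · refine tendsto_const_nhds.congr' ?_
    filter_upwards [Ioo_mem_nhdsGT h] with t ht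
    rw [rho_of_nonpos ht.2.le, rho_of_nonpos h.le, sub_self]
  · set w := L s with hw
    have hE : ∀ w w' : ℝ, w ≤ w' → w' < ⌊w⌋ + 1 → E w' - E w = (2 : ℝ) ^ ⌊w⌋ * (w' - w) := by
      intro w w' h1 h2
      have h3 : ⌊w'⌋ = ⌊w⌋ := by
        rw [Int.floor_eq_iff]
        exact ⟨(Int.floor_le w).trans h1, h2⟩
      simp only [E, Int.fract, h3]
      ring
    have hL : ContinuousAt L s := continuousOn_L.continuousAt (Ioi_mem_nhds h)
    have h1 : ∀ᶠ t in 𝓝[>] s, L t < ⌊w⌋ + 1 :=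
      nhdsWithin_le_nhds (hL.eventually_lt_const (Int.lt_floor_add_one w))
    have h2 : ∀ᶠ t in 𝓝[>] s, L t < ⌊w + 1 / 2⌋ + 1 - 1 / 2 :=
      nhdsWithin_le_nhds (hL.eventually_lt_const (by
        have := Int.lt_floor_add_one (w + 1 / 2)
        linarith))
    have h3 : ∀ᶠ t in 𝓝[>] s, rho t - rho s = t - s ∨ rho t - rho s = 2 * (t - s) := by
      filter_upwards [h1, h2, self_mem_nhdsWithin] with t ht1 ht2 hts
      have ht : 0 < t := h.trans hts
      have hwt : w ≤ L t := by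
        rw [← E_strictMono.le_iff_le, E_L ht, hw, E_L h]
        exact le_of_lt hts
      have e1 : t - s = (2 : ℝ) ^ ⌊w⌋ * (L t - w) := by
        rw [← hE w (L t) hwt ht1, E_L ht, hw, E_L h]
      have e2 : rho t - rho s = (2 : ℝ) ^ ⌊w + 1 / 2⌋ * (L t - w) := by
        rw [rho_of_pos ht, rho_of_pos h, ← hw, hE (w + 1 / 2) (L t + 1 / 2) (by linarith)
          (by linarith)]
        ring
      have h4 : ⌊w + 1 / 2⌋ = ⌊w⌋ ∨ ⌊w + 1 / 2⌋ = ⌊w⌋ + 1 := by
        have h5 : ⌊w⌋ ≤ ⌊w + 1 / 2⌋ := Int.floor_mono (by linarith)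
        have h6 : ⌊w + 1 / 2⌋ ≤ ⌊w + 1⌋ := Int.floor_mono (by linarith)
        rw [Int.floor_add_one] at h6
        omega
      rcases h4 with h4 | h4
      · left; rw [e1, e2, h4]
      · right
        rw [e1, e2, h4, zpow_add_one₀ (by norm_num)]
        ring
    have h5 : Tendsto (fun t => t - s) (𝓝[>] s) (𝓝[>] 0) := by
      refine tendsto_nhdsWithin_iff.2 ⟨?_, ?_⟩
      · have : Tendsto (fun t => t - s) (𝓝 s) (𝓝 (s - s)) :=
          (continuous_id.sub continuous_const).tendsto s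
        rw [sub_self] at this
        exact this.mono_left nhdsWithin_le_nhds
      · filter_upwards [self_mem_nhdsWithin] with t ht
        exact sub_pos.2 (mem_Ioi.1 ht)
    have h6 := tendsto_tau0_two.comp h5
    refine squeeze_zero_norm' ?_ (tendsto_zero_iff_norm_tendsto_zero.1 h6)
    filter_upwards [h3] with t ht
    rcases ht with ht | ht
    · rw [ht, sub_self, norm_zero]
      exact norm_nonneg _
    · rw [ht]
      exact le_rfl

lemma exists_tau0_eq (x δ : ℝ) (hδ : 0 < δ) : ∃ t, 0 < t ∧ t < δ ∧ tau0 t = x := by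
  obtain ⟨n, hn⟩ := exists_nat_gt (max (x ^ 2) (-(L δ)))
  have hn1 : x ^ 2 < n := (le_max_left _ _).trans_lt hn
  have hn2 : -(L δ) < n := (le_max_right _ _).trans_lt hn
  have hn0 : (0 : ℝ) < n := (sq_nonneg x).trans_lt hn1
  have hx1 : |x| < √n := by
    rw [← Real.sqrt_sq_eq_abs]
    exact Real.sqrt_lt_sqrt (sq_nonneg x) hn1
  let Φ : ℝ → ℝ := fun w => √|w| * Real.cos (2 * Real.pi * w)
  have hΦ : Continuous Φ := by
    have h1 : Continuous fun w : ℝ => √|w| := continuous_abs.sqrt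
    exact h1.mul (Real.continuous_cos.comp (continuous_const.mul continuous_id))
  have h1 : Φ (-n) = √n := by
    simp only [Φ]
    rw [abs_neg, abs_of_pos hn0, mul_neg, Real.cos_neg]
    have : 2 * Real.pi * (n : ℝ) = n * (2 * Real.pi) := by ring
    rw [this, Real.cos_nat_mul_two_pi, mul_one]
  have h2 : Φ (-n - 1 / 2) = -√(n + 1 / 2) := by
    simp only [Φ]
    have e1 : |(-n - 1 / 2 : ℝ)| = n + 1 / 2 := by
      rw [abs_of_neg (by linarith)]; ring
    have e2 : 2 * Real.pi * (-n - 1 / 2 : ℝ) = -(n * (2 * Real.pi) + Real.pi) := by ring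
    rw [e1, e2, Real.cos_neg, Real.cos_add_pi, Real.cos_nat_mul_two_pi]
    ring
  have h3 : x ∈ Icc (Φ (-n - 1 / 2)) (Φ (-n)) := by
    rw [h1, h2]
    have h4 : √(n : ℝ) ≤ √((n : ℝ) + 1 / 2) := Real.sqrt_le_sqrt (by linarith)
    have h5 := abs_lt.1 hx1
    exact ⟨by linarith, h5.2.le⟩
  obtain ⟨w, hw1, hw2⟩ := intermediate_value_Icc (show (-n - 1 / 2 : ℝ) ≤ -n by linarith)
    hΦ.continuousOn h3
  refine ⟨E w, E_pos w, ?_, ?_⟩
  · rw [← E_L hδ]
    refine E_strictMono ?_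
    linarith [hw1.2]
  · rw [tau0_E]
    exact hw2

/-! ### The main construction -/

variable {N : Type} [AddCommGroup N] [TopologicalSpace N]

omit [AddCommGroup N] in
lemma continuous_aux {g : ℝ → N} {a : N} (s : ℝ) (h0 : ∀ t ≤ s, g t = a)
    (hc : ContinuousOn g (Ioi s)) (hl : Tendsto g (𝓝[>] s) (𝓝 a)) : Continuous g := by
  refine continuous_iff_continuousAt.2 fun t => ?_
  rcases lt_trichotomy t s with h | rfl | h
  · refine (continuousAt_const (y := a)).congr ?_
    filter_upwards [Iio_mem_nhds h] with x hx using (h0 x (le_of_lt hx)).symm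
  · rw [ContinuousAt, h0 t le_rfl, ← nhdsLE_sup_nhdsGT]
    refine Tendsto.sup ?_ hl
    refine tendsto_const_nhds.congr' ?_
    filter_upwards [self_mem_nhdsWithin] with x hx using (h0 x hx).symm
  · exact hc.continuousAt (Ioi_mem_nhds h)

variable [IsTopologicalAddGroup N] [T2Space N] [ConnectedSpace N]

omit [IsTopologicalAddGroup N] [T2Space N] [ConnectedSpace N] in
lemma continuous_A (ψ : ℝ →+ N) (hψ : Continuous ψ) (s : ℝ) (hs : s ≠ 0) :
    Continuous fun t => ψ (tau0 (t - s)) - ψ (tau0 (rho t - rho s)) := by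
  have h1 : Continuous fun t => tau0 (t - s) - tau0 (rho t - rho s) := by
    refine continuous_aux s (fun t ht => ?_) ?_ (tendsto_tau0_sub s hs)
    · rw [tau0_of_nonpos (sub_nonpos.2 ht), tau0_of_nonpos (sub_nonpos.2 (rho.monotone ht)),
        sub_zero]
    · have e1 : ContinuousOn (fun t => t - s) (Ioi s) := continuousOn_id.sub continuousOn_const
      have e2 : ContinuousOn (fun t => rho t - rho s) (Ioi s) :=
        rho.continuous.continuousOn.sub continuousOn_const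
      refine (continuousOn_tau0.comp e1 fun t ht => ?_).sub
        (continuousOn_tau0.comp e2 fun t ht => ?_)
      · exact sub_pos.2 (mem_Ioi.1 ht)
      · exact sub_pos.2 (rho.strictMono ht)
  refine (hψ.comp h1).congr fun t => ?_
  exact map_sub ψ _ _

omit [IsTopologicalAddGroup N] [T2Space N] [ConnectedSpace N] in
lemma continuous_B (ψ : ℝ →+ N) (hψ : Continuous ψ) :
    Continuous fun t => ψ (tau0 t) + ψ (tau0 (rho t)) := by
  have h1 : Continuous fun t => tau0 t + tau0 (rho t) := by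
    refine continuous_aux 0 (fun t ht => ?_) ?_ tendsto_tau0_rho
    · rw [tau0_of_nonpos ht, tau0_of_nonpos (by rw [rho_of_nonpos ht]; exact ht), add_zero]
    · refine continuousOn_tau0.add (continuousOn_tau0.comp rho.continuous.continuousOn
        fun t ht => ?_)
      have := rho.strictMono ht
      rwa [rho_zero] at this
  refine (hψ.comp h1).congr fun t => ?_
  exact map_add ψ _ _

/-- For every commutative connected Hausdorff topological group `N`, locally homeomorphic to `ℝⁿ`,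
with a dense one-parameter subgroup there is a homogeneous `(n + 1)`-manifold in which `NH(z)` is
homeomorphic to `N` for every `z`. -/
theorem exists_manifold {n : ℕ}
    (hN : ∀ v : N, ∃ V : Set N, IsOpen V ∧ v ∈ V ∧ Nonempty (V ≃ₜ (Fin n → ℝ)))
    (ψ : ℝ →+ N) (hψ : Continuous ψ) (hd : DenseRange ψ) :
    ∃ (M : Type) (_ : TopologicalSpace M), IsManifold (n + 1) M ∧
      (∀ x y : M, ∃ h : M ≃ₜ M, h x = y) ∧ ∀ z : M, Nonempty (NH z ≃ₜ N) := by
  let τ : ℝ → N := fun t => ψ (tau0 t)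
  have hτ : ∀ x ≤ 0, τ x = 0 := fun x hx => by
    simp only [τ, tau0_of_nonpos hx, map_zero]
  have hτc : ContinuousOn τ (Ioi 0) := hψ.comp_continuousOn continuousOn_tau0
  have hhom : ∀ x y : Mfd τ, ∃ h : Mfd τ ≃ₜ Mfd τ, h x = y :=
    homogeneous rho rho_zero (continuous_A ψ hψ) (continuous_B ψ hψ)
  have hdense : ∀ (w : N), ∀ O ∈ 𝓝 (0 : N), ∀ δ > 0, ∃ t, 0 < t ∧ t < δ ∧ w + τ t ∈ O := by
    intro w O hO δ hδ
    have h1 : (fun y => w + y) ⁻¹' O ∈ 𝓝 (-w) := by
      refine (continuous_const.add continuous_id).continuousAt.preimage_mem_nhds ?_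
      simpa using hO
    obtain ⟨x, hx⟩ := hd.exists_mem_open isOpen_interior ⟨-w, mem_interior_iff_mem_nhds.2 h1⟩
    obtain ⟨t, ht0, htδ, ht⟩ := exists_tau0_eq x δ hδ
    refine ⟨t, ht0, htδ, ?_⟩
    simp only [τ, ht]
    exact (interior_subset hx : ψ x ∈ (fun y => w + y) ⁻¹' O)
  refine ⟨Mfd τ, inferInstance, isManifold hτ hτc hN, hhom, fun z => ?_⟩
  obtain ⟨h1⟩ := nonempty_NH_homeomorph hhom z (base τ)
  obtain ⟨h2⟩ := NH_base_homeomorph hτ hτc hdense
  exact ⟨h1.trans h2⟩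

end Pool.Agent.R817.Twist
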