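import Mathlib

/-!
# Homogeneous non-Hausdorff manifolds fibred over a branching line

Let `N` be a commutative topological group and `τ : ℝ → N` a map which vanishes on `(-∞, 0]` and is
continuous on `(0, ∞)`.  The space `Mfd τ` is obtained from copies of `ℝ × N` (the sheets), indexed
by the finite subsets `f` of `ℝ`: the sheets `f` and `g` are glued over `(m, ∞)` where `m` is the
largest point in which `f` and `g` differ, and the gluing is twisted by `τ`.
-/

set_option autoImplicit false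

open Set Topology Filter

namespace Pool.Agent.R817.Twist

variable {N : Type} [AddCommGroup N]

/-- The points `(r, Q, v)`: `r` is the level, `Q` the finite set of levels `≥ r` at which one
branches off the basic sheet, `v` the coordinate in the fibre. -/
def Mfd (_τ : ℝ → N) : Type := {p : ℝ × Finset ℝ × N // ∀ q ∈ p.2.1, p.1 ≤ q}

/-- The total twist of the sheet `f` at the level `t`. -/
noncomputable def tw (τ : ℝ → N) (f : Finset ℝ) (t : ℝ) : N := ∑ s ∈ f, τ (t - s)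

/-- The sheet `f`. -/
noncomputable def psi (τ : ℝ → N) (f : Finset ℝ) (x : ℝ × N) : Mfd τ :=
  ⟨(x.1, f.filter (x.1 ≤ ·), x.2 + tw τ f x.1), fun _ hq => (Finset.mem_filter.1 hq).2⟩

lemma psi_eq_iff (τ : ℝ → N) (f g : Finset ℝ) (x y : ℝ × N) :
    psi τ f x = psi τ g y ↔ x.1 = y.1 ∧ f.filter (x.1 ≤ ·) = g.filter (x.1 ≤ ·) ∧
      x.2 + tw τ f x.1 = y.2 + tw τ g x.1 := by
  constructor
  · intro h
    have h1 := congrArg Subtype.val h
    simp only [psi, Prod.mk.injEq] at h1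
    obtain ⟨h2, h3, h4⟩ := h1
    rw [h2]
    rw [h2] at h3 h4
    exact ⟨rfl, h3, h4⟩
  · rintro ⟨h2, h3, h4⟩
    apply Subtype.ext
    simp only [psi, Prod.mk.injEq]
    rw [h2] at h3 h4 ⊢
    exact ⟨rfl, h3, h4⟩

lemma exists_psi {τ : ℝ → N} (hτ : ∀ x ≤ 0, τ x = 0) (z : Mfd τ) :
    ∃ (f : Finset ℝ) (x : ℝ × N), psi τ f x = z := by
  obtain ⟨⟨r, Q, v⟩, h⟩ := z
  refine ⟨Q, (r, v), Subtype.ext ?_⟩
  have h1 : tw τ Q r = 0 := Finset.sum_eq_zero fun s hs => hτ _ (sub_nonpos.2 (h s hs))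
  have h2 : Q.filter (r ≤ ·) = Q := Finset.filter_true_of_mem h
  simp only [psi, h1, h2, add_zero]

section topology

variable [TopologicalSpace N]

noncomputable instance (τ : ℝ → N) : TopologicalSpace (Mfd τ) :=
  ⨆ f : Finset ℝ, TopologicalSpace.coinduced (psi τ f) inferInstance

lemma isOpen_iff (τ : ℝ → N) (U : Set (Mfd τ)) :
    IsOpen U ↔ ∀ f, IsOpen (psi τ f ⁻¹' U) := by
  rw [isOpen_iSup_iff]
  simp only [isOpen_coinduced]

lemma continuous_psi (τ : ℝ → N) (f : Finset ℝ) : Continuous (psi τ f) :=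
  ⟨fun U hU => (isOpen_iff τ U).1 hU f⟩

lemma continuous_of {τ : ℝ → N} {Y : Type} [TopologicalSpace Y] {F : Mfd τ → Y}
    (h : ∀ f, Continuous (F ∘ psi τ f)) : Continuous F :=
  ⟨fun _ hU => (isOpen_iff τ _).2 fun f => hU.preimage (h f)⟩

omit [TopologicalSpace N] in
lemma psi_injective (τ : ℝ → N) (f : Finset ℝ) : Function.Injective (psi τ f) := by
  intro x y h
  obtain ⟨h1, -, h3⟩ := (psi_eq_iff τ f f x y).1 h
  exact Prod.ext h1 (add_right_cancel h3)

/-- The levels over which two sheets are glued. -/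
def dom (f g : Finset ℝ) : Set ℝ := {t | f.filter (t ≤ ·) = g.filter (t ≤ ·)}

lemma mem_dom_iff (f g : Finset ℝ) (t : ℝ) : t ∈ dom f g ↔ ∀ s ∈ symmDiff f g, s < t := by
  simp only [dom, mem_ofPred_eq, Finset.ext_iff, Finset.mem_filter, Finset.mem_symmDiff]
  constructor
  · intro h s hs
    by_contra hcon
    push Not at hcon
    have := h s
    tauto
  · intro h s
    constructor
    · rintro ⟨h1, h2⟩
      refine ⟨?_, h2⟩
      by_contra h3
      exact absurd (h s (Or.inl ⟨h1, h3⟩)) (not_lt.2 h2)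
    · rintro ⟨h1, h2⟩
      refine ⟨?_, h2⟩
      by_contra h3
      exact absurd (h s (Or.inr ⟨h1, h3⟩)) (not_lt.2 h2)

lemma isOpen_dom (f g : Finset ℝ) : IsOpen (dom f g) := by
  have h1 : dom f g = ⋂ s ∈ symmDiff f g, Ioi s := by
    ext t
    simp only [mem_dom_iff, mem_iInter, mem_Ioi]
  rw [h1]
  exact isOpen_biInter_finset fun s _ => isOpen_Ioi

omit [TopologicalSpace N] in
lemma tw_sub (τ : ℝ → N) (f g : Finset ℝ) (t : ℝ) :
    tw τ f t - tw τ g t = tw τ (f \ g) t - tw τ (g \ f) t := by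
  classical
  have h1 : tw τ f t = tw τ (f \ g) t + tw τ (f ∩ g) t := by
    simp only [tw]
    rw [← Finset.sum_union (Finset.disjoint_sdiff_inter f g), Finset.sdiff_union_inter]
  have h2 : tw τ g t = tw τ (g \ f) t + tw τ (f ∩ g) t := by
    simp only [tw]
    rw [Finset.inter_comm, ← Finset.sum_union (Finset.disjoint_sdiff_inter g f),
      Finset.sdiff_union_inter]
  rw [h1, h2]
  abel

variable [IsTopologicalAddGroup N]

lemma continuousOn_tw {τ : ℝ → N} (hτ : ContinuousOn τ (Ioi 0)) (f : Finset ℝ) (D : Set ℝ)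
    (hD : ∀ t ∈ D, ∀ s ∈ f, s < t) : ContinuousOn (tw τ f) D := by
  refine continuousOn_finsetSum _ fun s hs => ?_
  refine hτ.comp (continuousOn_id.sub continuousOn_const) fun t ht => ?_
  exact sub_pos.2 (hD t ht s hs)

lemma continuousOn_tw_sub {τ : ℝ → N} (hτ : ContinuousOn τ (Ioi 0)) (f g : Finset ℝ) :
    ContinuousOn (fun t => tw τ f t - tw τ g t) (dom f g) := by
  have h1 : (fun t => tw τ f t - tw τ g t) = fun t => tw τ (f \ g) t - tw τ (g \ f) t := by
    ext t; exact tw_sub τ f g t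
  rw [h1]
  refine (continuousOn_tw hτ _ _ fun t ht s hs => ?_).sub
    (continuousOn_tw hτ _ _ fun t ht s hs => ?_)
  · exact (mem_dom_iff f g t).1 ht s (by
      rw [Finset.mem_symmDiff]; rw [Finset.mem_sdiff] at hs; exact Or.inl hs)
  · exact (mem_dom_iff f g t).1 ht s (by
      rw [Finset.mem_symmDiff]; rw [Finset.mem_sdiff] at hs; exact Or.inr hs)

lemma isOpenMap_psi {τ : ℝ → N} (hτ : ContinuousOn τ (Ioi 0)) (f : Finset ℝ) :
    IsOpenMap (psi τ f) := by
  intro O hO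
  refine (isOpen_iff τ _).2 fun g => ?_
  have h1 : psi τ g ⁻¹' (psi τ f '' O) = (dom f g ×ˢ univ) ∩
      (fun x : ℝ × N => (x.1, x.2 - (tw τ f x.1 - tw τ g x.1))) ⁻¹' O := by
    ext y
    constructor
    · rintro ⟨x, hx, hxy⟩
      obtain ⟨h1, h2, h3⟩ := (psi_eq_iff τ f g x y).1 hxy
      refine ⟨⟨?_, trivial⟩, ?_⟩
      · rw [h1] at h2; exact h2
      · have : (y.1, y.2 - (tw τ f y.1 - tw τ g y.1)) = x := by
          refine Prod.ext h1.symm ?_
          rw [h1] at h3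
          have : y.2 = x.2 + tw τ f y.1 - tw τ g y.1 := by rw [h3]; abel
          change y.2 - (tw τ f y.1 - tw τ g y.1) = x.2
          rw [this]; abel
        rw [mem_preimage, this]; exact hx
    · rintro ⟨⟨h1, -⟩, h2⟩
      refine ⟨_, h2, (psi_eq_iff τ f g _ _).2 ⟨rfl, h1, ?_⟩⟩
      simp only
      abel
  rw [h1]
  refine ContinuousOn.isOpen_inter_preimage ?_ ((isOpen_dom f g).prod isOpen_univ) hO
  refine continuousOn_fst.prodMk (continuousOn_snd.sub ?_)
  exact (continuousOn_tw_sub hτ f g).comp continuousOn_fst fun x hx => hx.1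

lemma isOpenEmbedding_psi {τ : ℝ → N} (hτ : ContinuousOn τ (Ioi 0)) (f : Finset ℝ) :
    IsOpenEmbedding (psi τ f) :=
  .of_continuous_injective_isOpenMap (continuous_psi τ f) (psi_injective τ f)
    (isOpenMap_psi hτ f)

/-- The level. -/
def level {τ : ℝ → N} (z : Mfd τ) : ℝ := z.1.1

omit [IsTopologicalAddGroup N] in
lemma continuous_level {τ : ℝ → N} : Continuous (level : Mfd τ → ℝ) :=
  continuous_of fun _ => continuous_fst

/-! ### Homeomorphisms -/

/-- Translation of the levels. -/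
noncomputable def shiftFun (τ : ℝ → N) (c : ℝ) (z : Mfd τ) : Mfd τ :=
  ⟨(z.1.1 + c, z.1.2.1.map (addRightEmbedding c), z.1.2.2), by
    intro q hq
    obtain ⟨p, hp, rfl⟩ := Finset.mem_map.1 hq
    have := z.2 p hp
    simp only [addRightEmbedding_apply]
    linarith⟩

omit [TopologicalSpace N] [IsTopologicalAddGroup N] in
lemma shiftFun_psi (τ : ℝ → N) (c : ℝ) (f : Finset ℝ) (x : ℝ × N) :
    shiftFun τ c (psi τ f x) = psi τ (f.map (addRightEmbedding c)) (x.1 + c, x.2) := by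
  apply Subtype.ext
  simp only [shiftFun, psi, Prod.mk.injEq, true_and]
  constructor
  · ext q
    simp only [Finset.mem_map, Finset.mem_filter, addRightEmbedding_apply]
    constructor
    · rintro ⟨p, ⟨h1, h2⟩, rfl⟩
      exact ⟨⟨p, h1, rfl⟩, by linarith⟩
    · rintro ⟨⟨p, h1, rfl⟩, h2⟩
      exact ⟨p, ⟨h1, by linarith⟩, rfl⟩
  · simp only [tw, Finset.sum_map, addRightEmbedding_apply, add_sub_add_right_eq_sub]

/-- Translation of the levels, as a homeomorphism. -/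
noncomputable def shift {τ : ℝ → N} (c : ℝ) : Mfd τ ≃ₜ Mfd τ where
  toFun := shiftFun τ c
  invFun := shiftFun τ (-c)
  left_inv z := by
    apply Subtype.ext
    simp only [shiftFun, add_neg_cancel_right, Finset.map_map]
    refine Prod.ext rfl (Prod.ext ?_ rfl)
    ext q
    simp
  right_inv z := by
    apply Subtype.ext
    simp only [shiftFun, neg_add_cancel_right, Finset.map_map]
    refine Prod.ext rfl (Prod.ext ?_ rfl)
    ext q
    simp
  continuous_toFun := continuous_of fun f => by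
    have : shiftFun τ c ∘ psi τ f =
        psi τ (f.map (addRightEmbedding c)) ∘ fun x => (x.1 + c, x.2) := by
      ext1 x; exact shiftFun_psi τ c f x
    rw [this]
    exact (continuous_psi τ _).comp (by fun_prop)
  continuous_invFun := continuous_of fun f => by
    have : shiftFun τ (-c) ∘ psi τ f =
        psi τ (f.map (addRightEmbedding (-c))) ∘ fun x => (x.1 + -c, x.2) := by
      ext1 x; exact shiftFun_psi τ (-c) f x
    rw [this]
    exact (continuous_psi τ _).comp (by fun_prop)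

/-- Translation in the fibre. -/
def rotFun (τ : ℝ → N) (w : N) (z : Mfd τ) : Mfd τ := ⟨(z.1.1, z.1.2.1, z.1.2.2 + w), z.2⟩

omit [TopologicalSpace N] [IsTopologicalAddGroup N] in
lemma rotFun_psi (τ : ℝ → N) (w : N) (f : Finset ℝ) (x : ℝ × N) :
    rotFun τ w (psi τ f x) = psi τ f (x.1, x.2 + w) := by
  apply Subtype.ext
  simp only [rotFun, psi, Prod.mk.injEq, true_and]
  abel

/-- Translation in the fibre, as a homeomorphism. -/
def rot {τ : ℝ → N} (w : N) : Mfd τ ≃ₜ Mfd τ where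
  toFun := rotFun τ w
  invFun := rotFun τ (-w)
  left_inv z := by
    apply Subtype.ext
    simp only [rotFun, add_neg_cancel_right]
  right_inv z := by
    apply Subtype.ext
    simp only [rotFun, neg_add_cancel_right]
  continuous_toFun := continuous_of fun f => by
    have : rotFun τ w ∘ psi τ f = psi τ f ∘ fun x => (x.1, x.2 + w) := by
      ext1 x; exact rotFun_psi τ w f x
    rw [this]
    exact (continuous_psi τ _).comp (by fun_prop)
  continuous_invFun := continuous_of fun f => by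
    have : rotFun τ (-w) ∘ psi τ f = psi τ f ∘ fun x => (x.1, x.2 + -w) := by
      ext1 x; exact rotFun_psi τ (-w) f x
    rw [this]
    exact (continuous_psi τ _).comp (by fun_prop)

/-- The map exchanging the sheet `∅` and the sheet `{0}`. -/
noncomputable def swapFun (τ : ℝ → N) (ρ : ℝ ≃o ℝ) (σ : ℝ → N) (z : Mfd τ) : Mfd τ :=
  ⟨(ρ z.1.1, (symmDiff (z.1.2.1.map ρ.toEquiv.toEmbedding) {0}).filter (ρ z.1.1 ≤ ·),
    z.1.2.2 + σ z.1.1), fun _ h => (Finset.mem_filter.1 h).2⟩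

omit [AddCommGroup N] [TopologicalSpace N] [IsTopologicalAddGroup N] in
lemma filter_symmDiff (ρ : ℝ ≃o ℝ) (f : Finset ℝ) (t : ℝ) :
    (symmDiff ((f.filter (t ≤ ·)).map ρ.toEquiv.toEmbedding) {0}).filter (ρ t ≤ ·) =
      (symmDiff (f.map ρ.toEquiv.toEmbedding) {0}).filter (ρ t ≤ ·) := by
  ext q
  simp only [Finset.mem_filter, Finset.mem_symmDiff, Finset.mem_map, Finset.mem_singleton,
    Equiv.coe_toEmbedding, RelIso.coe_fn_toEquiv]
  constructor
  · rintro ⟨h1, h2⟩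
    refine ⟨?_, h2⟩
    rcases h1 with ⟨⟨p, ⟨hp1, hp2⟩, rfl⟩, h3⟩ | ⟨h3, h4⟩
    · exact Or.inl ⟨⟨p, hp1, rfl⟩, h3⟩
    · refine Or.inr ⟨h3, ?_⟩
      rintro ⟨p, hp1, rfl⟩
      exact h4 ⟨p, ⟨hp1, ρ.le_iff_le.1 h2⟩, rfl⟩
  · rintro ⟨h1, h2⟩
    refine ⟨?_, h2⟩
    rcases h1 with ⟨⟨p, hp1, rfl⟩, h3⟩ | ⟨h3, h4⟩
    · exact Or.inl ⟨⟨p, ⟨hp1, ρ.le_iff_le.1 h2⟩, rfl⟩, h3⟩
    · refine Or.inr ⟨h3, ?_⟩
      rintro ⟨p, ⟨hp1, -⟩, rfl⟩
      exact h4 ⟨p, hp1, rfl⟩

omit [TopologicalSpace N] [IsTopologicalAddGroup N] in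
lemma swapFun_psi (τ : ℝ → N) (ρ : ℝ ≃o ℝ) (σ : ℝ → N) (f : Finset ℝ) (x : ℝ × N) :
    swapFun τ ρ σ (psi τ f x) = psi τ (symmDiff (f.map ρ.toEquiv.toEmbedding) {0})
      (ρ x.1, x.2 + (tw τ f x.1 + σ x.1 -
        tw τ (symmDiff (f.map ρ.toEquiv.toEmbedding) {0}) (ρ x.1))) := by
  refine Subtype.ext (Prod.ext rfl (Prod.ext (filter_symmDiff ρ f x.1) ?_))
  simp only [swapFun, psi]
  abel

lemma continuous_coord {τ : ℝ → N} {ρ : ℝ ≃o ℝ} (hρ : ρ 0 = 0) {σ : ℝ → N}
    (h1 : ∀ s ≠ 0, Continuous fun t => τ (t - s) - τ (ρ t - ρ s))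
    (h2 : Continuous fun t => σ t - τ (ρ t)) (h3 : Continuous fun t => τ t + σ t)
    (f : Finset ℝ) : Continuous fun t => tw τ f t + σ t -
      tw τ (symmDiff (f.map ρ.toEquiv.toEmbedding) {0}) (ρ t) := by
  classical
  by_cases h0 : (0 : ℝ) ∈ f
  · have e1 : symmDiff (f.map ρ.toEquiv.toEmbedding) {0} =
        (f.erase 0).map ρ.toEquiv.toEmbedding := by
      ext q
      simp only [Finset.mem_symmDiff, Finset.mem_map, Finset.mem_singleton, Finset.mem_erase,
        Equiv.coe_toEmbedding, RelIso.coe_fn_toEquiv]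
      constructor
      · rintro (⟨⟨p, hp, rfl⟩, h⟩ | ⟨rfl, h⟩)
        · exact ⟨p, ⟨fun hp0 => h (by rw [hp0, hρ]), hp⟩, rfl⟩
        · exact absurd ⟨0, h0, hρ⟩ h
      · rintro ⟨p, ⟨hp0, hp⟩, rfl⟩
        exact Or.inl ⟨⟨p, hp, rfl⟩, fun h => hp0 (ρ.injective (h.trans hρ.symm))⟩
    have e2 : (fun t => tw τ f t + σ t -
        tw τ (symmDiff (f.map ρ.toEquiv.toEmbedding) {0}) (ρ t)) =
        fun t => (∑ s ∈ f.erase 0, (τ (t - s) - τ (ρ t - ρ s))) + (τ t + σ t) := by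
      ext t
      rw [e1]
      simp only [tw, Finset.sum_map, Equiv.coe_toEmbedding, RelIso.coe_fn_toEquiv,
        Finset.sum_sub_distrib]
      rw [← Finset.add_sum_erase f _ h0, sub_zero]
      abel
    rw [e2]
    exact (continuous_finsetSum _ fun s hs => h1 s (Finset.mem_erase.1 hs).1).add h3
  · have e0 : (0 : ℝ) ∉ f.map ρ.toEquiv.toEmbedding := by
      simp only [Finset.mem_map, Equiv.coe_toEmbedding, RelIso.coe_fn_toEquiv, not_exists, not_and]
      intro p hp h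
      have : p = 0 := ρ.injective (h.trans hρ.symm)
      exact h0 (this ▸ hp)
    have e1 : symmDiff (f.map ρ.toEquiv.toEmbedding) {0} =
        insert 0 (f.map ρ.toEquiv.toEmbedding) := by
      ext q
      simp only [Finset.mem_symmDiff, Finset.mem_insert, Finset.mem_singleton]
      constructor
      · tauto
      · rintro (rfl | h)
        · exact Or.inr ⟨rfl, e0⟩
        · exact Or.inl ⟨h, fun h' => e0 (h' ▸ h)⟩
    have e2 : (fun t => tw τ f t + σ t -
        tw τ (symmDiff (f.map ρ.toEquiv.toEmbedding) {0}) (ρ t)) =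
        fun t => (∑ s ∈ f, (τ (t - s) - τ (ρ t - ρ s))) + (σ t - τ (ρ t)) := by
      ext t
      rw [e1]
      simp only [tw]
      rw [Finset.sum_insert e0, sub_zero]
      simp only [Finset.sum_map, Equiv.coe_toEmbedding, RelIso.coe_fn_toEquiv,
        Finset.sum_sub_distrib]
      abel
    rw [e2]
    by_cases hf : ∀ s ∈ f, s ≠ 0
    · exact (continuous_finsetSum _ fun s hs => h1 s (hf s hs)).add h2
    · push Not at hf
      obtain ⟨s, hs, rfl⟩ := hf
      exact absurd hs h0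

lemma continuous_swapFun {τ : ℝ → N} {ρ : ℝ ≃o ℝ} (hρ : ρ 0 = 0) {σ : ℝ → N}
    (h1 : ∀ s ≠ 0, Continuous fun t => τ (t - s) - τ (ρ t - ρ s))
    (h2 : Continuous fun t => σ t - τ (ρ t)) (h3 : Continuous fun t => τ t + σ t) :
    Continuous (swapFun τ ρ σ) := by
  refine continuous_of fun f => ?_
  have h4 := continuous_coord hρ h1 h2 h3 f
  have h5 : swapFun τ ρ σ ∘ psi τ f = psi τ (symmDiff (f.map ρ.toEquiv.toEmbedding) {0}) ∘
      fun x => (ρ x.1, x.2 + (tw τ f x.1 + σ x.1 -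
        tw τ (symmDiff (f.map ρ.toEquiv.toEmbedding) {0}) (ρ x.1))) := by
    ext1 x; exact swapFun_psi τ ρ σ f x
  rw [h5]
  refine (continuous_psi τ _).comp ?_
  exact (ρ.continuous.comp continuous_fst).prodMk
    (continuous_snd.add (h4.comp continuous_fst))

omit [TopologicalSpace N] [IsTopologicalAddGroup N] in
lemma finset_aux (ρ : ℝ ≃o ℝ) (hρ : ρ 0 = 0) (Q : Finset ℝ) (r : ℝ) (hQ : ∀ q ∈ Q, r ≤ q) :
    (symmDiff (((symmDiff (Q.map ρ.toEquiv.toEmbedding) {0}).filter (ρ r ≤ ·)).map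
      ρ.symm.toEquiv.toEmbedding) {0}).filter (r ≤ ·) = Q := by
  have h1 : ∀ x, x ∈ ((symmDiff (Q.map ρ.toEquiv.toEmbedding) {0}).filter (ρ r ≤ ·)).map
      ρ.symm.toEquiv.toEmbedding ↔ r ≤ x ∧ ((x ∈ Q ∧ x ≠ 0) ∨ (x = 0 ∧ x ∉ Q)) := by
    intro x
    simp only [Finset.mem_map, Finset.mem_filter, Finset.mem_symmDiff, Finset.mem_singleton,
      Equiv.coe_toEmbedding, RelIso.coe_fn_toEquiv]
    constructor
    · rintro ⟨y, ⟨h1, h2⟩, rfl⟩
      refine ⟨by rw [← ρ.le_iff_le, OrderIso.apply_symm_apply]; exact h2, ?_⟩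
      rcases h1 with ⟨⟨p, hp, rfl⟩, h3⟩ | ⟨rfl, h3⟩
      · rw [OrderIso.symm_apply_apply]
        exact Or.inl ⟨hp, fun h => h3 (by rw [h, hρ])⟩
      · have h4 : ρ.symm 0 = 0 := by rw [← hρ, OrderIso.symm_apply_apply, hρ]
        rw [h4]
        exact Or.inr ⟨rfl, fun h => h3 ⟨0, h, hρ⟩⟩
    · rintro ⟨h1, h2⟩
      refine ⟨ρ x, ⟨?_, ρ.le_iff_le.2 h1⟩, OrderIso.symm_apply_apply _ _⟩
      rcases h2 with ⟨h3, h4⟩ | ⟨rfl, h4⟩
      · exact Or.inl ⟨⟨x, h3, rfl⟩, fun h => h4 (ρ.injective (h.trans hρ.symm))⟩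
      · refine Or.inr ⟨hρ, ?_⟩
        rintro ⟨p, hp, h5⟩
        exact h4 (ρ.injective h5 ▸ hp)
  ext x
  rw [Finset.mem_filter, Finset.mem_symmDiff, h1, Finset.mem_singleton]
  by_cases hx : x ∈ Q
  · have := hQ x hx
    by_cases hx0 : x = 0
    · simp [hx0] at this hx ⊢
      simp [this, hx]
    · simp [this, hx, hx0]
  · by_cases hx0 : x = 0
    · subst hx0
      simp [hx]
    · simp [hx, hx0]

/-- The homeomorphism exchanging the sheets `∅` and `{0}`. -/
noncomputable def swap {τ : ℝ → N} (ρ : ℝ ≃o ℝ) (hρ : ρ 0 = 0)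
    (h1 : ∀ s ≠ 0, Continuous fun t => τ (t - s) - τ (ρ t - ρ s))
    (h2 : Continuous fun t => τ t + τ (ρ t)) : Mfd τ ≃ₜ Mfd τ where
  toFun := swapFun τ ρ fun t => τ (ρ t)
  invFun := swapFun τ ρ.symm fun t => -τ t
  left_inv z := by
    apply Subtype.ext
    simp only [swapFun, OrderIso.symm_apply_apply, add_neg_cancel_right]
    exact Prod.ext rfl (Prod.ext (finset_aux ρ hρ _ _ z.2) rfl)
  right_inv z := by
    apply Subtype.ext
    simp only [swapFun, OrderIso.apply_symm_apply, neg_add_cancel_right]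
    have hρ' : ρ.symm 0 = 0 := by rw [← hρ, OrderIso.symm_apply_apply, hρ]
    exact Prod.ext rfl (Prod.ext (finset_aux ρ.symm hρ' _ _ z.2) rfl)
  continuous_toFun := by
    refine continuous_swapFun hρ h1 ?_ h2
    simp only [sub_self]
    exact continuous_const
  continuous_invFun := by
    have hρ' : ρ.symm 0 = 0 := by rw [← hρ, OrderIso.symm_apply_apply, hρ]
    refine continuous_swapFun hρ' (fun s hs => ?_) ?_ ?_
    · have h3 := h1 (ρ.symm s) (fun h => hs (by rw [← ρ.apply_symm_apply s, h, hρ]))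
      have h4 := (h3.comp ρ.symm.continuous).neg
      refine h4.congr fun t => ?_
      change -(τ (ρ.symm t - ρ.symm s) - τ (ρ (ρ.symm t) - ρ (ρ.symm s))) = _
      rw [OrderIso.apply_symm_apply, OrderIso.apply_symm_apply]
      abel
    · have h4 := (h2.comp ρ.symm.continuous).neg
      refine h4.congr fun t => ?_
      change -(τ (ρ.symm t) + τ (ρ (ρ.symm t))) = _
      rw [OrderIso.apply_symm_apply]
      abel
    · simp only [add_neg_cancel]
      exact continuous_const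

/-- The base point. -/
def base (τ : ℝ → N) : Mfd τ := ⟨(0, ∅, 0), by simp⟩

/-- `Mfd τ` is homogeneous. -/
theorem homogeneous {τ : ℝ → N} (ρ : ℝ ≃o ℝ) (hρ : ρ 0 = 0)
    (h1 : ∀ s ≠ 0, Continuous fun t => τ (t - s) - τ (ρ t - ρ s))
    (h2 : Continuous fun t => τ t + τ (ρ t)) (x y : Mfd τ) : ∃ h : Mfd τ ≃ₜ Mfd τ, h x = y := by
  suffices key : ∀ (n : ℕ) (z : Mfd τ), z.1.2.1.card = n → ∃ h : Mfd τ ≃ₜ Mfd τ, h z = base τ by
    obtain ⟨h, hx⟩ := key _ x rfl
    obtain ⟨h', hy⟩ := key _ y rfl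
    exact ⟨h.trans h'.symm, by
      rw [Homeomorph.trans_apply, hx, ← hy, Homeomorph.symm_apply_apply]⟩
  intro n
  induction n with
  | zero =>
    rintro ⟨⟨r, Q, v⟩, hz⟩ hQ
    have hQ' : Q = ∅ := Finset.card_eq_zero.1 hQ
    subst hQ'
    refine ⟨(shift (-r)).trans (rot (-v)), ?_⟩
    change rotFun τ (-v) (shiftFun τ (-r) _) = _
    apply Subtype.ext
    simp [shiftFun, rotFun, base]
  | succ n ih =>
    rintro ⟨⟨r, Q, v⟩, hz⟩ hQ
    obtain ⟨q, hq⟩ : Q.Nonempty := Finset.card_pos.1 (by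
      change Q.card = n + 1 at hQ
      omega)
    let z' : Mfd τ := swap ρ hρ h1 h2 (shift (-q) ⟨(r, Q, v), hz⟩)
    have hcard : z'.1.2.1.card = n := by
      have e1 : z'.1.2.1 = ((Q.map (addRightEmbedding (-q))).map ρ.toEquiv.toEmbedding).erase 0 := by
        ext x
        have hmem0 : (0 : ℝ) ∈ (Q.map (addRightEmbedding (-q))).map ρ.toEquiv.toEmbedding := by
          simp only [Finset.mem_map, addRightEmbedding_apply, Equiv.coe_toEmbedding,
            RelIso.coe_fn_toEquiv]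
          exact ⟨0, ⟨q, hq, by simp⟩, hρ⟩
        have hge : ∀ x ∈ (Q.map (addRightEmbedding (-q))).map ρ.toEquiv.toEmbedding,
            ρ (r + -q) ≤ x := by
          intro x hx
          obtain ⟨y, hy, rfl⟩ := Finset.mem_map.1 hx
          obtain ⟨p, hp, rfl⟩ := Finset.mem_map.1 hy
          have := hz p hp
          simp only [addRightEmbedding_apply, Equiv.coe_toEmbedding, RelIso.coe_fn_toEquiv]
          exact ρ.le_iff_le.2 (by simpa using this)
        change x ∈ (symmDiff ((Q.map (addRightEmbedding (-q))).map ρ.toEquiv.toEmbedding)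
          {0}).filter (ρ (r + -q) ≤ ·) ↔ _
        rw [Finset.mem_filter, Finset.mem_symmDiff, Finset.mem_singleton, Finset.mem_erase]
        constructor
        · rintro ⟨⟨h3, h4⟩ | ⟨rfl, h4⟩, -⟩
          · exact ⟨h4, h3⟩
          · exact absurd hmem0 h4
        · rintro ⟨h3, h4⟩
          exact ⟨Or.inl ⟨h4, h3⟩, hge x h4⟩
      rw [e1, Finset.card_erase_of_mem, Finset.card_map, Finset.card_map]
      · change Q.card = n + 1 at hQ
        omega
      · simp only [Finset.mem_map, addRightEmbedding_apply, Equiv.coe_toEmbedding,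
          RelIso.coe_fn_toEquiv]
        exact ⟨0, ⟨q, hq, by simp⟩, hρ⟩
    obtain ⟨h, hh⟩ := ih z' hcard
    exact ⟨((shift (-q)).trans (swap ρ hρ h1 h2)).trans h, hh⟩

end topology

/-! ### Points which are not separated from a given point -/

/-- `NH(z)`: the points `y ≠ z` such that `y` and `z` cannot be separated by open sets. -/
def NH {M : Type} [TopologicalSpace M] (z : M) : Set M :=
  {y | y ≠ z ∧ ∀ U V : Set M, IsOpen U → IsOpen V → y ∈ U → z ∈ V → (U ∩ V).Nonempty}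

lemma image_NH {M : Type} [TopologicalSpace M] (h : M ≃ₜ M) (z : M) : h '' NH z = NH (h z) := by
  have key : ∀ (h : M ≃ₜ M) (z : M), h '' NH z ⊆ NH (h z) := by
    rintro h z _ ⟨y, ⟨hy1, hy2⟩, rfl⟩
    refine ⟨fun h' => hy1 (h.injective h'), fun U V hU hV hyU hzV => ?_⟩
    obtain ⟨x, hx1, hx2⟩ := hy2 (h ⁻¹' U) (h ⁻¹' V) (hU.preimage h.continuous)
      (hV.preimage h.continuous) hyU hzV
    exact ⟨h x, hx1, hx2⟩
  refine (key h z).antisymm fun y hy => ?_
  have h1 := key h.symm (h z) ⟨y, hy, rfl⟩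
  rw [Homeomorph.symm_apply_apply] at h1
  exact ⟨h.symm y, h1, h.apply_symm_apply y⟩

lemma nonempty_NH_homeomorph {M : Type} [TopologicalSpace M]
    (hom : ∀ x y : M, ∃ h : M ≃ₜ M, h x = y) (x y : M) : Nonempty (NH x ≃ₜ NH y) := by
  obtain ⟨h, rfl⟩ := hom x y
  exact ⟨(h.image (NH x)).trans (Homeomorph.setCongr (image_NH h x))⟩

section NHbase

variable [TopologicalSpace N] [IsTopologicalAddGroup N] [T2Space N] {τ : ℝ → N}

theorem NH_base (hτ : ∀ x ≤ 0, τ x = 0) (hτc : ContinuousOn τ (Ioi 0))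
    (hd : ∀ (w : N), ∀ O ∈ 𝓝 (0 : N), ∀ δ > 0, ∃ t, 0 < t ∧ t < δ ∧ w + τ t ∈ O) :
    NH (base τ) = range fun w : N => psi τ {0} (0, w) := by
  have htw0 : ∀ t, tw τ {0} t = τ t := fun t => by simp [tw]
  have htwe : ∀ t, tw τ ∅ t = 0 := fun t => by simp [tw]
  have hbase : base τ = psi τ ∅ (0, 0) := by
    apply Subtype.ext
    simp [base, psi, htwe]
  apply Subset.antisymm
  · rintro ⟨⟨r, Q, v⟩, hz⟩ ⟨hy1, hy2⟩
    -- the level is `0`
    have hr : r = 0 := by
      by_contra hr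
      obtain ⟨u, u', hu, hu', hru, h0u, huu'⟩ := t2_separation hr
      obtain ⟨x, hx1, hx2⟩ := hy2 (level ⁻¹' u) (level ⁻¹' u') (hu.preimage continuous_level)
        (hu'.preimage continuous_level) hru h0u
      exact disjoint_left.1 huu' hx1 hx2
    subst hr
    have hy : (⟨(0, Q, v), hz⟩ : Mfd τ) = psi τ Q (0, v) := by
      apply Subtype.ext
      have h1 : tw τ Q 0 = 0 := Finset.sum_eq_zero fun s hs => hτ _ (sub_nonpos.2 (hz s hs))
      have h2 : Q.filter ((0 : ℝ) ≤ ·) = Q := Finset.filter_true_of_mem hz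
      simp only [psi, h1, h2, add_zero]
    rw [hy] at hy1 hy2 ⊢
    by_cases hQ : Q = ∅
    · subst hQ
      exfalso
      rw [hbase] at hy1 hy2
      have hne : ((0 : ℝ), v) ≠ (0, 0) := fun h => hy1 (by rw [h])
      obtain ⟨u, u', hu, hu', hru, h0u, huu'⟩ := t2_separation hne
      obtain ⟨x, ⟨x1, hx1, hx1'⟩, ⟨x2, hx2, hx2'⟩⟩ := hy2 _ _ (isOpenMap_psi hτc ∅ u hu)
        (isOpenMap_psi hτc ∅ u' hu') ⟨_, hru, rfl⟩ ⟨_, h0u, rfl⟩
      have : x1 = x2 := psi_injective τ ∅ (hx1'.trans hx2'.symm)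
      exact disjoint_left.1 huu' hx1 (this ▸ hx2)
    · by_cases hQ0 : ∀ q ∈ Q, q = 0
      · have : Q = {0} := by
          obtain ⟨q, hq⟩ := Finset.nonempty_iff_ne_empty.2 hQ
          refine Finset.eq_singleton_iff_unique_mem.2 ⟨?_, hQ0⟩
          have := hQ0 q hq
          exact this ▸ hq
        subst this
        exact ⟨v, rfl⟩
      · push Not at hQ0
        obtain ⟨q, hq, hq0⟩ := hQ0
        have hqpos : 0 < q := lt_of_le_of_ne (hz q hq) (Ne.symm hq0)
        exfalso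
        have hmem : ((0 : ℝ), v) ∈ (Iio q ×ˢ univ : Set (ℝ × N)) := ⟨hqpos, trivial⟩
        obtain ⟨x, ⟨x1, hx1, hx1'⟩, ⟨x2, hx2'⟩⟩ := hy2 (psi τ Q '' (Iio q ×ˢ univ))
          (range (psi τ ∅)) (isOpenMap_psi hτc Q _ (isOpen_Iio.prod isOpen_univ))
          (isOpenMap_psi hτc ∅).isOpen_range ⟨_, hmem, rfl⟩ ⟨(0, 0), hbase.symm⟩
        obtain ⟨-, h2, -⟩ := (psi_eq_iff τ _ _ _ _).1 (hx1'.trans hx2'.symm)
        have h3 : q ∈ Q.filter (x1.1 ≤ ·) := Finset.mem_filter.2 ⟨hq, (hx1.1 : x1.1 < q).le⟩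
        rw [h2] at h3
        simp at h3
  · rintro _ ⟨w, rfl⟩
    refine ⟨?_, fun U V hU hV hyU hzV => ?_⟩
    · intro h
      rw [hbase] at h
      obtain ⟨-, h2, -⟩ := (psi_eq_iff τ _ _ _ _).1 h
      have h3 : (0 : ℝ) ∈ ({0} : Finset ℝ).filter ((0 : ℝ) ≤ ·) := by simp
      rw [h2] at h3
      simp at h3
    · have h1 : psi τ {0} ⁻¹' U ∈ 𝓝 ((0 : ℝ), w) :=
        (hU.preimage (continuous_psi τ _)).mem_nhds hyU
      have h2 : psi τ ∅ ⁻¹' V ∈ 𝓝 ((0 : ℝ), (0 : N)) :=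
        (hV.preimage (continuous_psi τ _)).mem_nhds (by rw [mem_preimage, ← hbase]; exact hzV)
      rw [mem_nhds_prod_iff] at h1 h2
      obtain ⟨A, hA, O₁, hO₁, h1⟩ := h1
      obtain ⟨B, hB, O₂, hO₂, h2⟩ := h2
      obtain ⟨δ, hδ, hAB⟩ := Metric.mem_nhds_iff.1 (inter_mem hA hB)
      obtain ⟨t, ht0, htδ, ht⟩ := hd w O₂ hO₂ δ hδ
      have htAB := hAB (show t ∈ Metric.ball (0 : ℝ) δ by
        rw [Metric.mem_ball, Real.dist_0_eq_abs, abs_of_pos ht0]; exact htδ)
      refine ⟨psi τ {0} (t, w), h1 ⟨htAB.1, mem_of_mem_nhds hO₁⟩, ?_⟩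
      have h3 : psi τ {0} (t, w) = psi τ ∅ (t, w + τ t) := by
        refine (psi_eq_iff τ _ _ _ _).2 ⟨rfl, ?_, ?_⟩
        · have : ¬ t ≤ 0 := not_le.2 ht0
          simp [Finset.filter_singleton, this]
        · simp [htw0, htwe]
      rw [h3]
      exact h2 ⟨htAB.2, ht⟩

theorem NH_base_homeomorph (hτ : ∀ x ≤ 0, τ x = 0) (hτc : ContinuousOn τ (Ioi 0))
    (hd : ∀ (w : N), ∀ O ∈ 𝓝 (0 : N), ∀ δ > 0, ∃ t, 0 < t ∧ t < δ ∧ w + τ t ∈ O) :
    Nonempty (NH (base τ) ≃ₜ N) := by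
  have h1 : IsEmbedding fun w : N => psi τ {0} ((0 : ℝ), w) :=
    (isOpenEmbedding_psi hτc {0}).isEmbedding.comp (isEmbedding_prodMkRight (0 : ℝ))
  exact ⟨(Homeomorph.setCongr (NH_base hτ hτc hd)).trans h1.toHomeomorph.symm⟩

end NHbase

/-! ### The manifold structure -/

/-- `M` is an `n`-manifold, not necessarily Hausdorff: it is connected and every point has an open
neighbourhood homeomorphic to `ℝⁿ`. -/
def IsManifold (n : ℕ) (M : Type) [TopologicalSpace M] : Prop :=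
  ConnectedSpace M ∧ ∀ x : M, ∃ U : Set M, IsOpen U ∧ x ∈ U ∧
    Nonempty (U ≃ₜ EuclideanSpace ℝ (Fin n))

/-- `ℝ × ℝⁿ` is homeomorphic to `ℝⁿ⁺¹`. -/
def consHomeo (n : ℕ) : ℝ × (Fin n → ℝ) ≃ₜ (Fin (n + 1) → ℝ) where
  toFun p := Fin.cons p.1 p.2
  invFun f := (f 0, Fin.tail f)
  left_inv p := by simp
  right_inv f := by simp
  continuous_toFun := by
    refine continuous_pi fun i => ?_
    refine Fin.cases ?_ (fun j => ?_) i
    · simpa using continuous_fst
    · simp only [Fin.cons_succ]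
      exact (continuous_apply j).comp continuous_snd
  continuous_invFun := by
    refine (continuous_apply 0).prodMk (continuous_pi fun i => ?_)
    exact continuous_apply i.succ

theorem isManifold [TopologicalSpace N] [IsTopologicalAddGroup N] [ConnectedSpace N] {τ : ℝ → N}
    (hτ : ∀ x ≤ 0, τ x = 0) (hτc : ContinuousOn τ (Ioi 0)) {n : ℕ}
    (hN : ∀ v : N, ∃ V : Set N, IsOpen V ∧ v ∈ V ∧ Nonempty (V ≃ₜ (Fin n → ℝ))) :
    IsManifold (n + 1) (Mfd τ) := by
  refine ⟨?_, ?_⟩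
  · have h1 : ∀ f : Finset ℝ, IsPreconnected (range (psi τ f) ∪ range (psi τ ∅)) := by
      intro f
      obtain ⟨m, hm⟩ := f.bddAbove
      have hmem : ∀ s ∈ f, s < m + 1 := fun s hs => (hm hs).trans_lt (lt_add_one m)
      refine IsPreconnected.union (psi τ f (m + 1, 0)) (mem_range_self _) ?_
        (isPreconnected_range (continuous_psi τ f)) (isPreconnected_range (continuous_psi τ ∅))
      refine ⟨(m + 1, 0 + tw τ f (m + 1)), ?_⟩
      refine (psi_eq_iff τ _ _ _ _).2 ⟨rfl, ?_, ?_⟩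
      · simp only [Finset.filter_empty]
        symm
        refine Finset.filter_eq_empty_iff.2 fun {s} hs => ?_
        exact not_le.2 (hmem s hs)
      · simp [tw]
    have h2 : (⋃ f : Finset ℝ, (range (psi τ f) ∪ range (psi τ ∅))) = univ := by
      refine eq_univ_of_forall fun z => ?_
      obtain ⟨f, x, rfl⟩ := exists_psi hτ z
      exact mem_iUnion.2 ⟨f, Or.inl ⟨x, rfl⟩⟩
    have h3 : IsPreconnected (⋃ f : Finset ℝ, (range (psi τ f) ∪ range (psi τ ∅))) :=
      isPreconnected_iUnion ⟨psi τ ∅ (0, 0), mem_iInter.2 fun f => Or.inr ⟨_, rfl⟩⟩ h1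
    rw [h2] at h3
    exact { isPreconnected_univ := h3, toNonempty := ⟨base τ⟩ }
  · intro z
    obtain ⟨f, ⟨t, v⟩, rfl⟩ := exists_psi hτ z
    obtain ⟨V, hV, hvV, ⟨e⟩⟩ := hN v
    have hemb := isOpenEmbedding_psi hτc f
    refine ⟨psi τ f '' (univ ×ˢ V), hemb.isOpenMap _ (isOpen_univ.prod hV),
      ⟨_, ⟨trivial, hvV⟩, rfl⟩, ?_⟩
    have e1 : (univ ×ˢ V : Set (ℝ × N)) ≃ₜ psi τ f '' (univ ×ˢ V) :=
      hemb.isEmbedding.homeomorphImage _
    have e2 : ↥(univ ×ˢ V : Set (ℝ × N)) ≃ₜ (↥(univ : Set ℝ) × ↥V) := Homeomorph.Set.prod _ _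
    have e3 : (↥(univ : Set ℝ) × ↥V) ≃ₜ ℝ × (Fin n → ℝ) := (Homeomorph.Set.univ ℝ).prodCongr e
    exact ⟨e1.symm.trans (e2.trans (e3.trans ((consHomeo n).trans
      (PiLp.homeomorph 2 fun _ : Fin (n + 1) => ℝ).symm)))⟩

end Pool.Agent.R817.Twist
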